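import Mathlib

/-!
# A small calculus for `p`-adic valuations of rationals (with `v(0) = ∞`)
-/

namespace Pool.Agent.Q6.Val

variable {p : ℕ} [hp : Fact p.Prime]

/-- `v_p(q) ≥ k`, zero allowed -/
def G (p : ℕ) (k : ℤ) (q : ℚ) : Prop := q = 0 ∨ k ≤ padicValRat p q

/-- `q ≠ 0` and `v_p(q) = k` -/
def V (p : ℕ) (q : ℚ) (k : ℤ) : Prop := q ≠ 0 ∧ padicValRat p q = k

omit hp in
theorem G.mono {k l : ℤ} {q : ℚ} (h : G p k q) (hl : l ≤ k) : G p l q := by
  rcases h with h | h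
  · exact Or.inl h
  · exact Or.inr (hl.trans h)

omit hp in
theorem V.toG {k l : ℤ} {q : ℚ} (h : V p q k) (hl : l ≤ k) : G p l q :=
  Or.inr (by rw [h.2]; exact hl)

theorem G.add {k : ℤ} {q r : ℚ} (hq : G p k q) (hr : G p k r) : G p k (q + r) := by
  rcases hq with h | h
  · rw [h, zero_add]; exact hr
  rcases hr with h' | h'
  · rw [h', add_zero]; exact Or.inr h
  by_cases h0 : q + r = 0
  · exact Or.inl h0
  · right
    exact (le_min h h').trans (padicValRat.min_le_padicValRat_add h0)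

omit hp in
theorem G.neg {k : ℤ} {q : ℚ} (hq : G p k q) : G p k (-q) := by
  rcases hq with h | h
  · left; rw [h, neg_zero]
  · right; rwa [padicValRat.neg]

theorem G.sub {k : ℤ} {q r : ℚ} (hq : G p k q) (hr : G p k r) : G p k (q - r) := by
  rw [sub_eq_add_neg]; exact hq.add hr.neg

theorem G.mul {k l : ℤ} {q r : ℚ} (hq : G p k q) (hr : G p l r) : G p (k + l) (q * r) := by
  rcases hq with h | h
  · left; rw [h, zero_mul]
  rcases hr with h' | h'
  · left; rw [h', mul_zero]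
  by_cases hq0 : q = 0
  · left; rw [hq0, zero_mul]
  by_cases hr0 : r = 0
  · left; rw [hr0, mul_zero]
  · right
    rw [padicValRat.mul hq0 hr0]
    exact add_le_add h h'

theorem V.mul {k l : ℤ} {q r : ℚ} (hq : V p q k) (hr : V p r l) : V p (q * r) (k + l) :=
  ⟨mul_ne_zero hq.1 hr.1, by rw [padicValRat.mul hq.1 hr.1, hq.2, hr.2]⟩

theorem V.div {k l : ℤ} {q r : ℚ} (hq : V p q k) (hr : V p r l) : V p (q / r) (k - l) :=
  ⟨div_ne_zero hq.1 hr.1, by rw [padicValRat.div hq.1 hr.1, hq.2, hr.2]⟩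

theorem V.pow {k : ℤ} {q : ℚ} (hq : V p q k) (n : ℕ) : V p (q ^ n) (n * k) :=
  ⟨pow_ne_zero _ hq.1, by rw [padicValRat.pow, hq.2]⟩

omit hp in
theorem V.neg {k : ℤ} {q : ℚ} (hq : V p q k) : V p (-q) k :=
  ⟨neg_ne_zero.2 hq.1, by rw [padicValRat.neg, hq.2]⟩

omit hp in
theorem V.self {q : ℚ} (hq : q ≠ 0) : V p q (padicValRat p q) := ⟨hq, rfl⟩

omit hp in
theorem V.cast {k l : ℤ} {q : ℚ} (h : V p q k) (e : k = l) : V p q l := e ▸ h

/-- the dominant term decides -/
theorem V.add {k l : ℤ} {q r : ℚ} (hq : V p q k) (hr : G p l r) (hl : k < l) : V p (q + r) k := by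
  rcases hr with h | h
  · rw [h, add_zero]; exact hq
  by_cases hr0 : r = 0
  · rw [hr0, add_zero]; exact hq
  have h0 : q + r ≠ 0 := by
    intro h0
    have : q = -r := by linarith
    have h1 := hq.2
    rw [this, padicValRat.neg] at h1
    omega
  refine ⟨h0, ?_⟩
  rw [padicValRat.add_eq_of_lt h0 hq.1 hr0 (by rw [hq.2]; omega), hq.2]

theorem V.sub {k l : ℤ} {q r : ℚ} (hq : V p q k) (hr : G p l r) (hl : k < l) : V p (q - r) k := by
  rw [sub_eq_add_neg]; exact hq.add hr.neg hl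

omit hp in
theorem V.unique {k l : ℤ} {q : ℚ} (h : V p q k) (h' : V p q l) : k = l := by
  rw [← h.2, h'.2]

omit hp in
theorem V.le_of_G {k l : ℤ} {q : ℚ} (h : V p q k) (h' : G p l q) : l ≤ k := by
  rcases h' with h' | h'
  · exact absurd h' h.1
  · rw [← h.2]; exact h'

omit hp in
theorem G_nat (n : ℕ) : G p 0 (n : ℚ) := by
  by_cases h : (n : ℚ) = 0
  · exact Or.inl h
  · right
    rw [padicValRat.of_nat]
    exact Int.natCast_nonneg _

omit hp in
theorem G_ofNat (n : ℕ) [n.AtLeastTwo] : G p 0 (OfNat.ofNat n : ℚ) := by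
  have := G_nat (p := p) (OfNat.ofNat n)
  rwa [Nat.cast_ofNat] at this

omit hp in
theorem G_int (n : ℤ) : G p 0 (n : ℚ) := by
  by_cases h : (n : ℚ) = 0
  · exact Or.inl h
  · right
    rw [padicValRat.of_int]
    exact Int.natCast_nonneg _

end Pool.Agent.Q6.Val
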