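import Pool.Agent.Q6.Near
import Pool.Agent.Q6.Val

/-!
# Points close to the origin of `y² = x³ + b` form a subgroup; `2`-adic doubling
-/

namespace Pool.Agent.Q6.Mord

open WeierstrassCurve Val

/-- `P = O` or `v_ℓ(x(P)) ≤ c` -/
def Cl {b : ℚ} (ℓ : ℕ) (c : ℤ) (P : (E b).Point) : Prop :=
  P ≠ 0 → ∃ v ≤ c, V ℓ (X P) v

variable {ℓ : ℕ} [Fact ℓ.Prime]

theorem Cl.aux {b : ℚ} (hb : b ≠ 0) {c : ℤ} (hc : 3 * c < padicValRat ℓ b) {P Q : (E b).Point}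
    (hP : P ≠ 0) (hQ : Q ≠ 0) {v₁ v₂ : ℤ} (h₁ : V ℓ (X P) v₁) (h₂ : V ℓ (X Q) v₂)
    (h12 : v₁ ≤ v₂) (h2c : v₂ ≤ c) (hx : X P ≠ X Q) : ∃ v ≤ c, V ℓ (X (P + Q)) v := by
  obtain ⟨hs, hd, hprod, hsum⟩ := sum_diff hP hQ hx
  have hB : V ℓ b (padicValRat ℓ b) := V.self hb
  set β := padicValRat ℓ b with hβ
  have hx0 : X P - X Q ≠ 0 := sub_ne_zero.2 hx
  have hD : V ℓ (X P - X Q) (padicValRat ℓ (X P - X Q)) := V.self hx0
  set D := padicValRat ℓ (X P - X Q)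
  have hD1 : v₁ ≤ D := hD.le_of_G ((h₁.toG le_rfl).sub (h₂.toG h12))
  -- product numerator
  have n1 : V ℓ ((X P * X Q) ^ 2 - 4 * b * (X P + X Q)) (2 * (v₁ + v₂)) := by
    refine V.sub (by simpa using (h₁.mul h₂).pow 2) (l := 0 + β + v₁) ?_ (by omega)
    exact ((G_ofNat 4).mul (hB.toG le_rfl)).mul ((h₁.toG le_rfl).add (h₂.toG h12))
  rw [← hprod] at n1
  have hA0 : X (P + Q) ≠ 0 := by
    intro h0; apply n1.1; rw [h0]; ring
  have hB0 : X (P - Q) ≠ 0 := by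
    intro h0; apply n1.1; rw [h0]; ring
  have hA := V.self (p := ℓ) hA0
  have hB' := V.self (p := ℓ) hB0
  set v₃ := padicValRat ℓ (X (P + Q))
  set v₄ := padicValRat ℓ (X (P - Q))
  have e1 : v₃ + v₄ + (2 : ℕ) * D = 2 * (v₁ + v₂) := ((hA.mul hB').mul (hD.pow 2)).unique n1
  push_cast at e1
  by_contra hcon
  push Not at hcon
  have hv3 : c < v₃ := by
    by_contra h
    exact hcon v₃ (by omega) hA
  -- sum numerator
  have s1 : V ℓ ((X (P + Q) + X (P - Q)) * (X P - X Q) ^ 2) (v₄ + (2 : ℕ) * D) := by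
    refine V.mul ?_ (hD.pow 2)
    rw [add_comm]
    exact hB'.add (hA.toG le_rfl) (by omega)
  rw [hsum] at s1
  have s2 : G ℓ (0 + (2 * v₁ + v₂)) (2 * (X P * X Q * (X P + X Q) + 2 * b)) := by
    refine (G_ofNat 2).mul (G.add ?_ ?_)
    · exact (((h₁.toG le_rfl).mul (h₂.toG le_rfl)).mul
        ((h₁.toG le_rfl).add (h₂.toG h12))).mono (by omega)
    · exact ((G_ofNat 2).mul (hB.toG le_rfl)).mono (by omega)
  have := s1.le_of_G s2
  push_cast at this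
  omega

theorem dblV {b : ℚ} (hb : b ≠ 0) {P : (E b).Point} (hP : P ≠ 0) {v : ℤ} (h : V ℓ (X P) v)
    (hv : 3 * v < padicValRat ℓ b) : P + P ≠ 0 ∧ V ℓ (X (P + P)) (v - padicValRat ℓ 4) := by
  have hB : V ℓ b (padicValRat ℓ b) := V.self hb
  set β := padicValRat ℓ b with hβ
  have h1 : V ℓ (X P ^ 3 + b) ((3 : ℕ) * v) := (h.pow 3).add (hB.toG le_rfl) (by push_cast; omega)
  have h2 : V ℓ (X P ^ 3 - 8 * b) ((3 : ℕ) * v) :=
    (h.pow 3).sub ((G_ofNat 8).mul (hB.toG le_rfl)) (by push_cast; omega)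
  obtain ⟨h3, h4⟩ := dbl hP h1.1
  refine ⟨h3, ?_⟩
  have h40 : (4 : ℚ) ≠ 0 := by norm_num
  have e : X (P + P) = X P * (X P ^ 3 - 8 * b) / (4 * (X P ^ 3 + b)) := by
    rw [eq_div_iff (mul_ne_zero h40 h1.1)]; exact h4
  rw [e]
  exact ((h.mul h2).div ((V.self h40).mul h1)).cast (by ring)

omit [Fact ℓ.Prime] in
theorem v4_nonneg : 0 ≤ padicValRat ℓ 4 := by
  rcases G_ofNat (p := ℓ) 4 with h | h
  · norm_num at h
  · exact h

theorem Cl.add {b : ℚ} (hb : b ≠ 0) {c : ℤ} (hc : 3 * c < padicValRat ℓ b) {P Q : (E b).Point}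
    (hP : Cl ℓ c P) (hQ : Cl ℓ c Q) : Cl ℓ c (P + Q) := by
  intro hPQ
  by_cases hP0 : P = 0
  · rw [hP0, zero_add] at hPQ ⊢; exact hQ hPQ
  by_cases hQ0 : Q = 0
  · rw [hQ0, add_zero] at hPQ ⊢; exact hP hPQ
  obtain ⟨v₁, h1, h₁⟩ := hP hP0
  obtain ⟨v₂, h2, h₂⟩ := hQ hQ0
  by_cases hx : X P = X Q
  · rcases X_eq hP0 hQ0 hx with h | h
    · rw [← h]
      obtain ⟨-, h5⟩ := dblV hb hP0 h₁ (by omega)
      exact ⟨_, by have := v4_nonneg (ℓ := ℓ); omega, h5⟩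
    · exact absurd (by rw [h]; exact neg_add_cancel Q) hPQ
  · rcases le_total v₁ v₂ with h12 | h12
    · exact Cl.aux hb hc hP0 hQ0 h₁ h₂ h12 h2 hx
    · rw [add_comm]
      exact Cl.aux hb hc hQ0 hP0 h₂ h₁ h12 h1 (fun h => hx h.symm)

theorem Cl.nsmul {b : ℚ} (hb : b ≠ 0) {c : ℤ} (hc : 3 * c < padicValRat ℓ b) {P : (E b).Point}
    (hP : Cl ℓ c P) (n : ℕ) : Cl ℓ c (n • P) := by
  induction n with
  | zero => intro h; exact absurd (zero_nsmul P) h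
  | succ n ih => rw [succ_nsmul]; exact ih.add hb hc hP

/-- a multiple close to `O` -/
theorem near' {b : ℚ} (hb : b ≠ 0) {P : (E b).Point} (hP : NT P) (ℓ : ℕ) [Fact ℓ.Prime]
    (c : ℤ) : ∃ n : ℕ, n ≠ 0 ∧ Cl ℓ c (n • P) := by
  obtain ⟨n, hn, h⟩ := near hb hP ℓ ((ℓ : ℝ) ^ (-c))
  refine ⟨n, hn, fun _ => ?_⟩
  have hl : (1 : ℝ) < ℓ := by exact_mod_cast (Fact.out : ℓ.Prime).one_lt
  have hX : X (n • P) ≠ 0 := by
    intro h0
    rw [h0] at h
    simp only [Rat.cast_zero, norm_zero] at h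
    exact absurd h (not_lt.2 (zpow_nonneg (by linarith) _))
  refine ⟨_, ?_, V.self hX⟩
  rw [Padic.eq_padicNorm, padicNorm.eq_zpow_of_nonzero hX] at h
  push_cast at h
  rw [zpow_lt_zpow_iff_right₀ hl] at h
  omega

/-- a point of `y² = x³ + b` with `3 v₂(x) < v₂(b)` has infinite order -/
theorem NT_of_two {b : ℚ} (hb : b ≠ 0) {P : (E b).Point} (hP : P ≠ 0) {v : ℤ} (h : V 2 (X P) v)
    (hv : 3 * v < padicValRat 2 b) : NT P := by
  have h4 : padicValRat 2 4 = 2 := by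
    have : (4 : ℚ) = 2 ^ 2 := by norm_num
    have h2 : padicValRat 2 2 = 1 := by
      have := padicValRat.self (p := 2) one_lt_two
      simpa using this
    rw [this, padicValRat.pow, h2]
    norm_num
  have key : ∀ k : ℕ, (2 ^ k) • P ≠ 0 ∧ V 2 (X ((2 ^ k) • P)) (v - 2 * k) := by
    intro k
    induction k with
    | zero => simpa using ⟨hP, h⟩
    | succ k ih =>
      obtain ⟨i1, i2⟩ := dblV (ℓ := 2) hb ih.1 ih.2 (by omega)
      rw [pow_succ, mul_two, add_nsmul]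
      refine ⟨i1, i2.cast ?_⟩
      rw [h4]; push_cast; ring
  intro n hn h0
  have hfin : IsOfFinAddOrder P := isOfFinAddOrder_iff_nsmul_eq_zero.2 ⟨n, Nat.pos_of_ne_zero hn, h0⟩
  have hfs : Finite (AddSubmonoid.multiples P) := by
    exact (finite_multiples).2 hfin
  have : ¬ Function.Injective (fun k : ℕ => (⟨(2 ^ k) • P, ⟨2 ^ k, rfl⟩⟩ : AddSubmonoid.multiples P)) :=
    not_injective_infinite_finite _
  apply this
  intro i j hij
  have hij' : (2 ^ i) • P = (2 ^ j) • P := by simpa using congrArg Subtype.val hij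
  have h1 := (key i).2
  rw [hij'] at h1
  have := h1.unique (key j).2
  omega

end Pool.Agent.Q6.Mord
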