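import Mathlib

/-!
# The equation `x³ + y³ = 3 z³`

Descent in `ℤ[ζ₃]`, adapted from Mathlib's proof of Fermat's last theorem for exponent three
(`Mathlib/NumberTheory/FLT/Three.lean`): `a³ + b³ = u lambda² c³` has no solution with `lambda ∤ a, b`,
`c ≠ 0`, `a, b` coprime.
-/

namespace Pool.Agent.Q6.Cube3

open NumberField IsCyclotomicExtension.Rat.Three

variable {K : Type*} [Field K]
variable {ζ : K} (hζ : IsPrimitiveRoot ζ 3)

/-- a solution of `a³ + b³ = u lambda² c³` -/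
structure Solution' where
  a : 𝓞 K
  b : 𝓞 K
  c : 𝓞 K
  u : (𝓞 K)ˣ
  ha : ¬ (hζ.toInteger - 1) ∣ a
  hb : ¬ (hζ.toInteger - 1) ∣ b
  hc : c ≠ 0
  coprime : IsCoprime a b
  H : a ^ 3 + b ^ 3 = u * ((hζ.toInteger - 1) ^ 2 * c ^ 3)

/-- a solution with `lambda² ∣ a + b` -/
structure Solution extends Solution' hζ where
  hab : (hζ.toInteger - 1) ^ 2 ∣ a + b

variable {hζ}
variable (S : Solution hζ) (S' : Solution' hζ)

section IsCyclotomicExtension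

variable [NumberField K] [IsCyclotomicExtension {3} ℚ K]

lemma Solution'.multiplicity_lambda_c_finite :
    FiniteMultiplicity (hζ.toInteger - 1) S'.c :=
  .of_not_isUnit hζ.zeta_sub_one_prime'.not_isUnit S'.hc

noncomputable def Solution'.multiplicity :=
  _root_.multiplicity (hζ.toInteger - 1) S'.c

noncomputable def Solution.multiplicity := S.toSolution'.multiplicity

def Solution.isMinimal : Prop := ∀ (S₁ : Solution hζ), S.multiplicity ≤ S₁.multiplicity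

omit [NumberField K] [IsCyclotomicExtension {3} ℚ K] in
include S in
lemma Solution.exists_minimal : ∃ (S₁ : Solution hζ), S₁.isMinimal := by
  classical
  let T := {n | ∃ (S' : Solution hζ), S'.multiplicity = n}
  rcases Nat.find_spec (⟨S.multiplicity, ⟨S, rfl⟩⟩ : T.Nonempty) with ⟨S₁, hS₁⟩
  exact ⟨S₁, fun S'' ↦ hS₁ ▸ Nat.find_min' _ ⟨S'', rfl⟩⟩

lemma a_cube_b_cube_congr_one_or_neg_one :
    (hζ.toInteger - 1) ^ 4 ∣ S'.a ^ 3 - 1 ∧ (hζ.toInteger - 1) ^ 4 ∣ S'.b ^ 3 + 1 ∨ (hζ.toInteger - 1) ^ 4 ∣ S'.a ^ 3 + 1 ∧ (hζ.toInteger - 1) ^ 4 ∣ S'.b ^ 3 - 1 := by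
  rcases lambda_pow_four_dvd_cube_sub_one_or_add_one_of_lambda_not_dvd hζ S'.ha with
    ⟨x, hx⟩ | ⟨x, hx⟩ <;>
  rcases lambda_pow_four_dvd_cube_sub_one_or_add_one_of_lambda_not_dvd hζ S'.hb with
    ⟨y, hy⟩ | ⟨y, hy⟩
  · exfalso
    replace hζ : IsPrimitiveRoot ζ (3 ^ 1) := by rwa [pow_one]
    refine hζ.toInteger_sub_one_not_dvd_two (by decide) ⟨S'.u * (hζ.toInteger - 1) * S'.c ^ 3 - (hζ.toInteger - 1) ^ 3 * (x + y), ?_⟩
    symm
    calc _ = S'.u * ((hζ.toInteger - 1) ^ 2 * S'.c ^ 3) - (hζ.toInteger - 1) ^ 4 * x - (hζ.toInteger - 1) ^ 4 * y := by ring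
    _ = (S'.a ^ 3 + S'.b ^ 3) - (S'.a ^ 3 - 1) - (S'.b ^ 3 - 1) := by rw [← hx, ← hy, ← S'.H]
    _ = 2 := by ring
  · left
    exact ⟨⟨x, hx⟩, ⟨y, hy⟩⟩
  · right
    exact ⟨⟨x, hx⟩, ⟨y, hy⟩⟩
  · exfalso
    replace hζ : IsPrimitiveRoot ζ (3 ^ 1) := by rwa [pow_one]
    refine hζ.toInteger_sub_one_not_dvd_two (by decide) ⟨(hζ.toInteger - 1) ^ 3 * (x + y) - S'.u * (hζ.toInteger - 1) * S'.c ^ 3, ?_⟩
    symm
    calc _ = (hζ.toInteger - 1) ^ 4 * x + (hζ.toInteger - 1) ^ 4 * y - S'.u * ((hζ.toInteger - 1) ^ 2 * S'.c ^ 3) := by ring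
    _ = (S'.a ^ 3 + 1) + (S'.b ^ 3 + 1) - (S'.a ^ 3 + S'.b ^ 3) := by rw [← hx, ← hy, ← S'.H]
    _ = 2 := by ring

lemma lambda_pow_four_dvd_c_cube : (hζ.toInteger - 1) ^ 4 ∣ (hζ.toInteger - 1) ^ 2 * S'.c ^ 3 := by
  rcases a_cube_b_cube_congr_one_or_neg_one S' with
    ⟨⟨x, hx⟩, ⟨y, hy⟩⟩ | ⟨⟨x, hx⟩, ⟨y, hy⟩⟩ <;>
  · refine ⟨S'.u⁻¹ * (x + y), ?_⟩
    symm
    calc _ = S'.u⁻¹ * ((hζ.toInteger - 1) ^ 4 * x + (hζ.toInteger - 1) ^ 4 * y) := by ring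
    _ = S'.u⁻¹ * (S'.a ^ 3 + S'.b ^ 3) := by rw [← hx, ← hy]; ring
    _ = S'.u⁻¹ * (S'.u * ((hζ.toInteger - 1) ^ 2 * S'.c ^ 3)) := by rw [S'.H]
    _ = (hζ.toInteger - 1) ^ 2 * S'.c ^ 3 := by simp

lemma lambda_dvd_c : (hζ.toInteger - 1) ∣ S'.c := by
  have h := lambda_pow_four_dvd_c_cube S'
  rw [show (hζ.toInteger - 1) ^ 4 = (hζ.toInteger - 1) ^ 2 * (hζ.toInteger - 1) ^ 2 by ring] at h
  have h2 : (hζ.toInteger - 1) ^ 2 ∣ S'.c ^ 3 :=
    (mul_dvd_mul_iff_left (pow_ne_zero 2 hζ.zeta_sub_one_prime'.ne_zero)).1 h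
  exact hζ.zeta_sub_one_prime'.dvd_of_dvd_pow ((dvd_pow_self _ (by decide)).trans h2)

lemma Solution'.one_le_multiplicity : 1 ≤ S'.multiplicity := by
  have := S'.multiplicity_lambda_c_finite.le_multiplicity_of_pow_dvd (k := 1)
    (by simpa using lambda_dvd_c S')
  simpa [Solution'.multiplicity] using this

lemma Solution.one_le_multiplicity : 1 ≤ S.multiplicity :=
  S.toSolution'.one_le_multiplicity

end IsCyclotomicExtension

lemma a_cube_add_b_cube_eq_mul :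
    S'.a ^ 3 + S'.b ^ 3 = (S'.a + S'.b) * (S'.a + ((IsPrimitiveRoot.isUnit (hζ.toInteger_isPrimitiveRoot) (by decide)).unit) * S'.b) * (S'.a + ((IsPrimitiveRoot.isUnit (hζ.toInteger_isPrimitiveRoot) (by decide)).unit) ^ 2 * S'.b) := by
  symm
  calc _ = S'.a^3+S'.a^2*S'.b*(((IsPrimitiveRoot.isUnit (hζ.toInteger_isPrimitiveRoot) (by decide)).unit)^2+((IsPrimitiveRoot.isUnit (hζ.toInteger_isPrimitiveRoot) (by decide)).unit)+1)+S'.a*S'.b^2*(((IsPrimitiveRoot.isUnit (hζ.toInteger_isPrimitiveRoot) (by decide)).unit)^2+((IsPrimitiveRoot.isUnit (hζ.toInteger_isPrimitiveRoot) (by decide)).unit)+((IsPrimitiveRoot.isUnit (hζ.toInteger_isPrimitiveRoot) (by decide)).unit)^3)+((IsPrimitiveRoot.isUnit (hζ.toInteger_isPrimitiveRoot) (by decide)).unit)^3*S'.b^3 := by ring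
  _ = S'.a^3+S'.a^2*S'.b*(((IsPrimitiveRoot.isUnit (hζ.toInteger_isPrimitiveRoot) (by decide)).unit)^2+((IsPrimitiveRoot.isUnit (hζ.toInteger_isPrimitiveRoot) (by decide)).unit)+1)+S'.a*S'.b^2*(((IsPrimitiveRoot.isUnit (hζ.toInteger_isPrimitiveRoot) (by decide)).unit)^2+((IsPrimitiveRoot.isUnit (hζ.toInteger_isPrimitiveRoot) (by decide)).unit)+1)+S'.b^3 := by
    simp [hζ.toInteger_cube_eq_one]
  _ = S'.a ^ 3 + S'.b ^ 3 := by rw [eta_sq]; ring

section IsCyclotomicExtension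
variable [NumberField K] [IsCyclotomicExtension {3} ℚ K]

lemma lambda_sq_dvd_or_dvd_or_dvd :
    (hζ.toInteger - 1) ^ 2 ∣ S'.a + S'.b ∨ (hζ.toInteger - 1) ^ 2 ∣ S'.a + ((IsPrimitiveRoot.isUnit (hζ.toInteger_isPrimitiveRoot) (by decide)).unit) * S'.b ∨ (hζ.toInteger - 1) ^ 2 ∣ S'.a + ((IsPrimitiveRoot.isUnit (hζ.toInteger_isPrimitiveRoot) (by decide)).unit) ^ 2 * S'.b := by
  by_contra! ⟨h1, h2, h3⟩
  rw [← emultiplicity_lt_iff_not_dvd] at h1 h2 h3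
  have h1' : FiniteMultiplicity (hζ.toInteger - 1) (S'.a + S'.b) :=
    finiteMultiplicity_iff_emultiplicity_ne_top.2 (fun ht ↦ by simp [ht] at h1)
  have h2' : FiniteMultiplicity (hζ.toInteger - 1) (S'.a + ((IsPrimitiveRoot.isUnit (hζ.toInteger_isPrimitiveRoot) (by decide)).unit) * S'.b) := by
    refine finiteMultiplicity_iff_emultiplicity_ne_top.2 (fun ht ↦ ?_)
    rw [coe_eta] at ht
    simp [ht] at h2
  have h3' : FiniteMultiplicity (hζ.toInteger - 1) (S'.a + ((IsPrimitiveRoot.isUnit (hζ.toInteger_isPrimitiveRoot) (by decide)).unit) ^ 2 * S'.b) := by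
    refine finiteMultiplicity_iff_emultiplicity_ne_top.2 (fun ht ↦ ?_)
    rw [coe_eta] at ht
    simp [ht] at h3
  rw [h1'.emultiplicity_eq_multiplicity, Nat.cast_lt] at h1
  rw [h2'.emultiplicity_eq_multiplicity, Nat.cast_lt] at h2
  rw [h3'.emultiplicity_eq_multiplicity, Nat.cast_lt] at h3
  have h4 : (hζ.toInteger - 1) ^ 5 ∣ (S'.u : 𝓞 K) * ((hζ.toInteger - 1) ^ 2 * S'.c ^ 3) := by
    refine Dvd.dvd.mul_left ?_ _
    rw [show (hζ.toInteger - 1) ^ 5 = (hζ.toInteger - 1) ^ 2 * (hζ.toInteger - 1) ^ 3 by ring]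
    exact mul_dvd_mul_left _ (pow_dvd_pow_of_dvd (lambda_dvd_c S') 3)
  rw [← S'.H, a_cube_add_b_cube_eq_mul, pow_dvd_iff_le_emultiplicity,
    emultiplicity_mul hζ.zeta_sub_one_prime', emultiplicity_mul hζ.zeta_sub_one_prime',
      h1'.emultiplicity_eq_multiplicity, h2'.emultiplicity_eq_multiplicity,
      h3'.emultiplicity_eq_multiplicity, ← Nat.cast_add, ← Nat.cast_add, Nat.cast_le] at h4
  lia

open Units in
lemma ex_cube_add_cube_eq_and_isCoprime_and_not_dvd_and_dvd :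
    ∃ (a' b' : 𝓞 K), a' ^ 3 + b' ^ 3 = S'.u * ((hζ.toInteger - 1) ^ 2 * S'.c ^ 3) ∧ IsCoprime a' b' ∧ ¬ (hζ.toInteger - 1) ∣ a' ∧
      ¬ (hζ.toInteger - 1) ∣ b' ∧ (hζ.toInteger - 1) ^ 2 ∣ a' + b' := by
  rcases lambda_sq_dvd_or_dvd_or_dvd S' with h | h | h
  · exact ⟨S'.a, S'.b, S'.H, S'.coprime, S'.ha, S'.hb, h⟩
  · refine ⟨S'.a, ((IsPrimitiveRoot.isUnit (hζ.toInteger_isPrimitiveRoot) (by decide)).unit) * S'.b, ?_, ?_, S'.ha, fun ⟨x, hx⟩ ↦ S'.hb ⟨((IsPrimitiveRoot.isUnit (hζ.toInteger_isPrimitiveRoot) (by decide)).unit) ^ 2 * x, ?_⟩, h⟩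
    · simp [mul_pow, hζ.toInteger_cube_eq_one, one_mul, S'.H]
    · refine (isCoprime_mul_unit_left_right (Units.isUnit ((IsPrimitiveRoot.isUnit (hζ.toInteger_isPrimitiveRoot) (by decide)).unit)) _ _).2 S'.coprime
    · rw [mul_comm _ x, ← mul_assoc, ← hx, mul_comm _ S'.b, mul_assoc, ← pow_succ', coe_eta,
        hζ.toInteger_cube_eq_one, mul_one]
  · refine ⟨S'.a, ((IsPrimitiveRoot.isUnit (hζ.toInteger_isPrimitiveRoot) (by decide)).unit) ^ 2 * S'.b, ?_, ?_, S'.ha, fun ⟨x, hx⟩ ↦ S'.hb ⟨((IsPrimitiveRoot.isUnit (hζ.toInteger_isPrimitiveRoot) (by decide)).unit) * x, ?_⟩, h⟩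
    · rw [mul_pow, ← pow_mul, mul_comm 2, pow_mul, coe_eta, hζ.toInteger_cube_eq_one, one_pow,
        one_mul, S'.H]
    · exact (isCoprime_mul_unit_left_right ((Units.isUnit ((IsPrimitiveRoot.isUnit (hζ.toInteger_isPrimitiveRoot) (by decide)).unit)).pow _) _ _).2 S'.coprime
    · rw [mul_comm _ x, ← mul_assoc, ← hx, mul_comm _ S'.b, mul_assoc, ← pow_succ, coe_eta,
        hζ.toInteger_cube_eq_one, mul_one]

lemma exists_Solution_of_Solution' : ∃ (S₁ : Solution hζ), S₁.multiplicity = S'.multiplicity := by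
  obtain ⟨a, b, H, coprime, ha, hb, hab⟩ := ex_cube_add_cube_eq_and_isCoprime_and_not_dvd_and_dvd S'
  exact ⟨
  { a := a
    b := b
    c := S'.c
    u := S'.u
    ha := ha
    hb := hb
    hc := S'.hc
    coprime := coprime
    H := H
    hab := hab }, rfl⟩

end IsCyclotomicExtension

namespace Solution

lemma a_add_eta_mul_b : S.a + ((IsPrimitiveRoot.isUnit (hζ.toInteger_isPrimitiveRoot) (by decide)).unit) * S.b = (S.a + S.b) + (hζ.toInteger - 1) * S.b := by rw [coe_eta]; ring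

lemma lambda_dvd_a_add_eta_mul_b : (hζ.toInteger - 1) ∣ (S.a + ((IsPrimitiveRoot.isUnit (hζ.toInteger_isPrimitiveRoot) (by decide)).unit) * S.b) :=
  a_add_eta_mul_b S ▸ dvd_add (dvd_trans (dvd_pow_self _ (by decide)) S.hab) ⟨S.b, by rw [mul_comm]⟩

lemma lambda_dvd_a_add_eta_sq_mul_b : (hζ.toInteger - 1) ∣ (S.a + ((IsPrimitiveRoot.isUnit (hζ.toInteger_isPrimitiveRoot) (by decide)).unit) ^ 2 * S.b) := by
  rw [show S.a + ((IsPrimitiveRoot.isUnit (hζ.toInteger_isPrimitiveRoot) (by decide)).unit) ^ 2 * S.b = (S.a + S.b) + (hζ.toInteger - 1) ^ 2 * S.b + 2 * (hζ.toInteger - 1) * S.b by rw [coe_eta]; ring]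
  exact dvd_add (dvd_add (dvd_trans (dvd_pow_self _ (by decide)) S.hab) ⟨(hζ.toInteger - 1) * S.b, by ring⟩)
    ⟨2 * S.b, by ring⟩

section IsCyclotomicExtension

variable [NumberField K] [IsCyclotomicExtension {3} ℚ K]

lemma lambda_sq_not_dvd_a_add_eta_mul_b : ¬ (hζ.toInteger - 1) ^ 2 ∣ (S.a + ((IsPrimitiveRoot.isUnit (hζ.toInteger_isPrimitiveRoot) (by decide)).unit) * S.b) := by
  simp_rw [a_add_eta_mul_b, dvd_add_right S.hab, pow_two, mul_dvd_mul_iff_left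
    hζ.zeta_sub_one_prime'.ne_zero, S.hb, not_false_eq_true]

lemma lambda_sq_not_dvd_a_add_eta_sq_mul_b : ¬ (hζ.toInteger - 1) ^ 2 ∣ (S.a + ((IsPrimitiveRoot.isUnit (hζ.toInteger_isPrimitiveRoot) (by decide)).unit) ^ 2 * S.b) := by
  intro ⟨k, hk⟩
  rcases S.hab with ⟨k', hk'⟩
  refine S.hb ⟨(k - k') * (-((IsPrimitiveRoot.isUnit (hζ.toInteger_isPrimitiveRoot) (by decide)).unit)), ?_⟩
  rw [show S.a + ((IsPrimitiveRoot.isUnit (hζ.toInteger_isPrimitiveRoot) (by decide)).unit) ^ 2 * S.b = S.a + S.b - S.b + ((IsPrimitiveRoot.isUnit (hζ.toInteger_isPrimitiveRoot) (by decide)).unit) ^ 2 * S.b by ring, hk',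
    show (hζ.toInteger - 1) ^ 2 * k' - S.b + ((IsPrimitiveRoot.isUnit (hζ.toInteger_isPrimitiveRoot) (by decide)).unit) ^ 2 * S.b = (hζ.toInteger - 1) * (S.b * (((IsPrimitiveRoot.isUnit (hζ.toInteger_isPrimitiveRoot) (by decide)).unit) + 1) + (hζ.toInteger - 1) * k') by rw [coe_eta]; ring,
    pow_two, mul_assoc] at hk
  simp only [mul_eq_mul_left_iff, hζ.zeta_sub_one_prime'.ne_zero, or_false] at hk
  apply_fun (· * -↑((IsPrimitiveRoot.isUnit (hζ.toInteger_isPrimitiveRoot) (by decide)).unit)) at hk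
  rw [show (S.b * (((IsPrimitiveRoot.isUnit (hζ.toInteger_isPrimitiveRoot) (by decide)).unit) + 1) + (hζ.toInteger - 1) * k') * -((IsPrimitiveRoot.isUnit (hζ.toInteger_isPrimitiveRoot) (by decide)).unit) = (-S.b) * (((IsPrimitiveRoot.isUnit (hζ.toInteger_isPrimitiveRoot) (by decide)).unit) ^ 2 + ((IsPrimitiveRoot.isUnit (hζ.toInteger_isPrimitiveRoot) (by decide)).unit) + 1 - 1) - ((IsPrimitiveRoot.isUnit (hζ.toInteger_isPrimitiveRoot) (by decide)).unit) * (hζ.toInteger - 1) * k' by ring,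
    eta_sq, show -S.b * (-↑((IsPrimitiveRoot.isUnit (hζ.toInteger_isPrimitiveRoot) (by decide)).unit) - 1 + ↑((IsPrimitiveRoot.isUnit (hζ.toInteger_isPrimitiveRoot) (by decide)).unit) + 1 - 1) = S.b by ring, sub_eq_iff_eq_add] at hk
  rw [hk]
  ring

attribute [local instance] IsCyclotomicExtension.Rat.three_pid
attribute [local instance] UniqueFactorizationMonoid.toGCDMonoid

lemma associated_of_dvd_a_add_b_of_dvd_a_add_eta_mul_b {p : 𝓞 K} (hp : Prime p)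
    (hpab : p ∣ S.a + S.b) (hpaeb : p ∣ S.a + ((IsPrimitiveRoot.isUnit (hζ.toInteger_isPrimitiveRoot) (by decide)).unit) * S.b) : Associated p (hζ.toInteger - 1) := by
  suffices p_lam : p ∣ (hζ.toInteger - 1) from hp.associated_of_dvd hζ.zeta_sub_one_prime' p_lam
  rw [← one_mul S.a, ← one_mul S.b] at hpab
  rw [← one_mul S.a] at hpaeb
  have := dvd_mul_sub_mul_mul_gcd_of_dvd hpab hpaeb
  rwa [one_mul, one_mul, coe_eta, IsUnit.dvd_mul_right <| (gcd_isUnit_iff _ _).2 S.coprime] at this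

lemma associated_of_dvd_a_add_b_of_dvd_a_add_eta_sq_mul_b {p : 𝓞 K} (hp : Prime p)
    (hpab : p ∣ (S.a + S.b)) (hpaesb : p ∣ (S.a + ((IsPrimitiveRoot.isUnit (hζ.toInteger_isPrimitiveRoot) (by decide)).unit) ^ 2 * S.b)) : Associated p (hζ.toInteger - 1) := by
  suffices p_lam : p ∣ (hζ.toInteger - 1) from hp.associated_of_dvd hζ.zeta_sub_one_prime' p_lam
  rw [← one_mul S.a, ← one_mul S.b] at hpab
  rw [← one_mul S.a] at hpaesb
  have := dvd_mul_sub_mul_mul_gcd_of_dvd hpab hpaesb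
  rw [one_mul, mul_one, IsUnit.dvd_mul_right <| (gcd_isUnit_iff _ _).2 S.coprime, ← dvd_neg] at this
  convert! dvd_mul_of_dvd_left this ((IsPrimitiveRoot.isUnit (hζ.toInteger_isPrimitiveRoot) (by decide)).unit) using 1
  rw [eta_sq, neg_sub, sub_mul, sub_mul, neg_mul, ← pow_two, eta_sq, coe_eta]
  ring

lemma associated_of_dvd_a_add_eta_mul_b_of_dvd_a_add_eta_sq_mul_b {p : 𝓞 K} (hp : Prime p)
    (hpaeb : p ∣ S.a + ((IsPrimitiveRoot.isUnit (hζ.toInteger_isPrimitiveRoot) (by decide)).unit) * S.b) (hpaesb : p ∣ S.a + ((IsPrimitiveRoot.isUnit (hζ.toInteger_isPrimitiveRoot) (by decide)).unit) ^ 2 * S.b) : Associated p (hζ.toInteger - 1) := by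
  suffices p_lam : p ∣ (hζ.toInteger - 1) from hp.associated_of_dvd hζ.zeta_sub_one_prime' p_lam
  rw [← one_mul S.a] at hpaeb
  rw [← one_mul S.a] at hpaesb
  have := dvd_mul_sub_mul_mul_gcd_of_dvd hpaeb hpaesb
  rw [one_mul, mul_one, IsUnit.dvd_mul_right <| (gcd_isUnit_iff _ _).2 S.coprime] at this
  convert! (dvd_mul_of_dvd_left (dvd_mul_of_dvd_left this ((IsPrimitiveRoot.isUnit (hζ.toInteger_isPrimitiveRoot) (by decide)).unit)) ((IsPrimitiveRoot.isUnit (hζ.toInteger_isPrimitiveRoot) (by decide)).unit)) using 1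
  symm
  calc _ = (-((IsPrimitiveRoot.isUnit (hζ.toInteger_isPrimitiveRoot) (by decide)).unit).1 - 1 - ((IsPrimitiveRoot.isUnit (hζ.toInteger_isPrimitiveRoot) (by decide)).unit)) * (-((IsPrimitiveRoot.isUnit (hζ.toInteger_isPrimitiveRoot) (by decide)).unit) - 1) := by rw [eta_sq, mul_assoc, ← pow_two, eta_sq]
  _ = 2 * ((IsPrimitiveRoot.isUnit (hζ.toInteger_isPrimitiveRoot) (by decide)).unit).1 ^ 2 + 3 * ((IsPrimitiveRoot.isUnit (hζ.toInteger_isPrimitiveRoot) (by decide)).unit) + 1 := by ring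
  _ = (hζ.toInteger - 1) := by rw [eta_sq, coe_eta]; ring

end IsCyclotomicExtension

noncomputable def y := (lambda_dvd_a_add_eta_mul_b S).choose
lemma y_spec : S.a + ((IsPrimitiveRoot.isUnit (hζ.toInteger_isPrimitiveRoot) (by decide)).unit) * S.b = (hζ.toInteger - 1) * S.y :=
  (lambda_dvd_a_add_eta_mul_b S).choose_spec

noncomputable def z := (lambda_dvd_a_add_eta_sq_mul_b S).choose
lemma z_spec : S.a + ((IsPrimitiveRoot.isUnit (hζ.toInteger_isPrimitiveRoot) (by decide)).unit) ^ 2 * S.b = (hζ.toInteger - 1) * S.z :=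
  (lambda_dvd_a_add_eta_sq_mul_b S).choose_spec

variable [NumberField K] [IsCyclotomicExtension {3} ℚ K]

lemma lambda_not_dvd_y : ¬ (hζ.toInteger - 1) ∣ S.y := fun h ↦ by
  replace h := mul_dvd_mul_left ((((IsPrimitiveRoot.isUnit (hζ.toInteger_isPrimitiveRoot) (by decide)).unit) : 𝓞 K) - 1) h
  rw [coe_eta, ← y_spec, ← pow_two] at h
  exact lambda_sq_not_dvd_a_add_eta_mul_b _ h

lemma lambda_not_dvd_z : ¬ (hζ.toInteger - 1) ∣ S.z := fun h ↦ by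
  replace h := mul_dvd_mul_left ((((IsPrimitiveRoot.isUnit (hζ.toInteger_isPrimitiveRoot) (by decide)).unit) : 𝓞 K) - 1) h
  rw [coe_eta, ← z_spec, ← pow_two] at h
  exact lambda_sq_not_dvd_a_add_eta_sq_mul_b _ h

/-- We have that `lambda ^ (3*S.multiplicity)` divides `S.a + S.b`. -/
lemma lambda_pow_dvd_a_add_b : (hζ.toInteger - 1) ^ (3 * S.multiplicity) ∣ S.a + S.b := by
  have h : (hζ.toInteger - 1) ^ S.multiplicity ∣ S.c := pow_multiplicity_dvd _ _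
  replace h : (hζ.toInteger - 1) ^ 2 * ((hζ.toInteger - 1) ^ multiplicity S) ^ 3 ∣ S.u * ((hζ.toInteger - 1) ^ 2 * S.c ^ 3) :=
    Dvd.dvd.mul_left (mul_dvd_mul_left _ (pow_dvd_pow_of_dvd h 3)) _
  rw [← S.H, a_cube_add_b_cube_eq_mul, ← pow_mul, mul_comm (multiplicity S) 3, y_spec, z_spec] at h
  apply hζ.zeta_sub_one_prime'.pow_dvd_of_dvd_mul_left _ S.lambda_not_dvd_z
  apply hζ.zeta_sub_one_prime'.pow_dvd_of_dvd_mul_left _ S.lambda_not_dvd_y
  rw [show (S.a + S.b) * ((hζ.toInteger - 1) * y S) * ((hζ.toInteger - 1) * z S) = (hζ.toInteger - 1) ^ 2 * ((S.a + S.b) * y S * z S) by ring] at h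
  rw [mul_dvd_mul_iff_left (pow_ne_zero 2 hζ.zeta_sub_one_prime'.ne_zero)] at h
  rwa [show (S.a + S.b) * y S * z S = y S * (z S * (S.a + S.b)) by ring] at h

noncomputable def x := (lambda_pow_dvd_a_add_b S).choose
lemma x_spec : S.a + S.b = (hζ.toInteger - 1) ^ (3 * S.multiplicity) * S.x :=
  (lambda_pow_dvd_a_add_b S).choose_spec

noncomputable def w :=
  (pow_multiplicity_dvd (hζ.toInteger - 1) S.c).choose

omit [NumberField K] [IsCyclotomicExtension {3} ℚ K] in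
lemma w_spec : S.c = (hζ.toInteger - 1) ^ S.multiplicity * S.w :=
  (pow_multiplicity_dvd (hζ.toInteger - 1) S.c).choose_spec

lemma lambda_not_dvd_w : ¬ (hζ.toInteger - 1) ∣ S.w := fun h ↦ by
  refine S.toSolution'.multiplicity_lambda_c_finite.not_pow_dvd_of_multiplicity_lt
    (lt_add_one S.multiplicity) ?_
  rw [pow_succ', mul_comm]
  exact S.w_spec ▸ (mul_dvd_mul_left ((hζ.toInteger - 1) ^ S.multiplicity) h)

lemma x_mul_y_mul_z_eq_u_mul_w_cube : S.x * S.y * S.z = S.u * S.w ^ 3 := by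
  have h0 : (hζ.toInteger - 1) ^ (3 * S.multiplicity + 2) ≠ 0 := pow_ne_zero _ hζ.zeta_sub_one_prime'.ne_zero
  apply mul_left_cancel₀ h0
  have e1 : (hζ.toInteger - 1) ^ (3 * S.multiplicity + 2) * (S.x * S.y * S.z)
      = ((hζ.toInteger - 1) ^ (3 * S.multiplicity) * S.x) * ((hζ.toInteger - 1) * S.y) * ((hζ.toInteger - 1) * S.z) := by
    rw [pow_add]; ring
  rw [e1, ← x_spec, ← y_spec, ← z_spec, ← a_cube_add_b_cube_eq_mul, S.H]
  have e2 : S.c ^ 3 = (hζ.toInteger - 1) ^ (3 * S.multiplicity) * S.w ^ 3 := by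
    conv_lhs => rw [S.w_spec]
    rw [mul_pow, ← pow_mul, mul_comm S.multiplicity 3]
  rw [e2, pow_add]; ring

lemma lambda_not_dvd_x : ¬ (hζ.toInteger - 1) ∣ S.x := fun h ↦ by
  have h1 : (hζ.toInteger - 1) ∣ S.u * S.w ^ 3 := by
    rw [← x_mul_y_mul_z_eq_u_mul_w_cube]
    exact (h.mul_right _).mul_right _
  have h2 : (hζ.toInteger - 1) ∣ S.w ^ 3 := (Units.dvd_mul_left).1 h1
  exact lambda_not_dvd_w _ <| hζ.zeta_sub_one_prime'.dvd_of_dvd_pow h2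

attribute [local instance] IsCyclotomicExtension.Rat.three_pid

lemma isCoprime_helper {r s t w : 𝓞 K} (hr : ¬ (hζ.toInteger - 1) ∣ r) (hs : ¬ (hζ.toInteger - 1) ∣ s)
    (Hp : ∀ {p}, Prime p → p ∣ t → p ∣ w → Associated p (hζ.toInteger - 1)) (H₁ : ∀ {q}, q ∣ r → q ∣ t)
    (H₂ : ∀ {q}, q ∣ s → q ∣ w) : IsCoprime r s := by
  refine isCoprime_of_prime_dvd (not_and.2 (fun _ hz ↦ hs (by simp [hz])))
    (fun p hp p_dvd_r p_dvd_s ↦ hr ?_)
  rwa [← Associated.dvd_iff_dvd_left <| Hp hp (H₁ p_dvd_r) (H₂ p_dvd_s)]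

lemma isCoprime_x_y : IsCoprime S.x S.y :=
  isCoprime_helper (lambda_not_dvd_x S) (lambda_not_dvd_y S)
    (associated_of_dvd_a_add_b_of_dvd_a_add_eta_mul_b S) (fun hq ↦ x_spec S ▸ hq.mul_left _)
      (fun hq ↦ y_spec S ▸ hq.mul_left _)

lemma isCoprime_x_z : IsCoprime S.x S.z :=
  isCoprime_helper (lambda_not_dvd_x S) (lambda_not_dvd_z S)
    (associated_of_dvd_a_add_b_of_dvd_a_add_eta_sq_mul_b S) (fun hq ↦ x_spec S ▸ hq.mul_left _)
      (fun hq ↦ z_spec S ▸ hq.mul_left _)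

lemma isCoprime_y_z : IsCoprime S.y S.z :=
  isCoprime_helper (lambda_not_dvd_y S) (lambda_not_dvd_z S)
    (associated_of_dvd_a_add_eta_mul_b_of_dvd_a_add_eta_sq_mul_b S)
    (fun hq ↦ y_spec S ▸ hq.mul_left _) (fun hq ↦ z_spec S ▸ hq.mul_left _)

lemma exists_cube_associated :
    (∃ X, Associated (X ^ 3) S.x) ∧ (∃ Y, Associated (Y ^ 3) S.y) ∧
      ∃ Z, Associated (Z ^ 3) S.z := by
  have h₁ := S.isCoprime_x_z.mul_left S.isCoprime_y_z
  have h₂ : Associated (S.w ^ 3) (S.x * S.y * S.z) :=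
    ⟨S.u, by rw [x_mul_y_mul_z_eq_u_mul_w_cube S, mul_comm]⟩
  obtain ⟨T, h₃⟩ := exists_associated_pow_of_associated_pow_mul h₁ h₂
  exact ⟨exists_associated_pow_of_associated_pow_mul S.isCoprime_x_y h₃,
    exists_associated_pow_of_associated_pow_mul S.isCoprime_x_y.symm (mul_comm _ S.x ▸ h₃),
    exists_associated_pow_of_associated_pow_mul h₁.symm (mul_comm _ S.z ▸ h₂)⟩

noncomputable def X := (exists_cube_associated S).1.choose
noncomputable def u₁ := (exists_cube_associated S).1.choose_spec.choose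
lemma X_u₁_spec : S.X ^ 3 * S.u₁ = S.x :=
  (exists_cube_associated S).1.choose_spec.choose_spec

noncomputable def Y := (exists_cube_associated S).2.1.choose
noncomputable def u₂ := (exists_cube_associated S).2.1.choose_spec.choose
lemma Y_u₂_spec : S.Y ^ 3 * S.u₂ = S.y :=
  (exists_cube_associated S).2.1.choose_spec.choose_spec

noncomputable def Z := (exists_cube_associated S).2.2.choose
noncomputable def u₃ := (exists_cube_associated S).2.2.choose_spec.choose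
lemma Z_u₃_spec : S.Z ^ 3 * S.u₃ = S.z :=
  (exists_cube_associated S).2.2.choose_spec.choose_spec

lemma X_ne_zero : S.X ≠ 0 :=
  fun h ↦ lambda_not_dvd_x S <| by simp [← X_u₁_spec, h]

lemma lambda_not_dvd_X : ¬ (hζ.toInteger - 1) ∣ S.X :=
  fun h ↦ lambda_not_dvd_x S <| X_u₁_spec S ▸ dvd_mul_of_dvd_left (dvd_pow h (by decide)) _

lemma lambda_not_dvd_Y : ¬ (hζ.toInteger - 1) ∣ S.Y :=
  fun h ↦ lambda_not_dvd_y S <| Y_u₂_spec S ▸ dvd_mul_of_dvd_left (dvd_pow h (by decide)) _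

lemma lambda_not_dvd_Z : ¬ (hζ.toInteger - 1) ∣ S.Z :=
  fun h ↦ lambda_not_dvd_z S <| Z_u₃_spec S ▸ dvd_mul_of_dvd_left (dvd_pow h (by decide)) _

lemma isCoprime_Y_Z : IsCoprime S.Y S.Z := by
  rw [← IsCoprime.pow_iff (m := 3) (n := 3) (by decide) (by decide),
    ← isCoprime_mul_unit_right_left S.u₂.isUnit, ← isCoprime_mul_unit_right_right S.u₃.isUnit,
    Y_u₂_spec, Z_u₃_spec]
  exact isCoprime_y_z S

lemma formula1 : S.X^3*S.u₁*(hζ.toInteger - 1)^(3*S.multiplicity)+S.Y^3*S.u₂*(hζ.toInteger - 1)*((IsPrimitiveRoot.isUnit (hζ.toInteger_isPrimitiveRoot) (by decide)).unit)+S.Z^3*S.u₃*(hζ.toInteger - 1)*((IsPrimitiveRoot.isUnit (hζ.toInteger_isPrimitiveRoot) (by decide)).unit)^2 = 0 := by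
  rw [X_u₁_spec, Y_u₂_spec, Z_u₃_spec, mul_comm S.x, ← x_spec, mul_comm S.y, ← y_spec, mul_comm S.z,
    ← z_spec, eta_sq]
  calc _ = S.a+S.b+((IsPrimitiveRoot.isUnit (hζ.toInteger_isPrimitiveRoot) (by decide)).unit)^2*S.b-S.a+((IsPrimitiveRoot.isUnit (hζ.toInteger_isPrimitiveRoot) (by decide)).unit)^2*S.b+2*((IsPrimitiveRoot.isUnit (hζ.toInteger_isPrimitiveRoot) (by decide)).unit)*S.b+S.b := by ring
  _ = 0 := by rw [eta_sq]; ring

noncomputable def u₄ := ((IsPrimitiveRoot.isUnit (hζ.toInteger_isPrimitiveRoot) (by decide)).unit) * S.u₃ * S.u₂⁻¹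
lemma u₄_def : S.u₄ = ((IsPrimitiveRoot.isUnit (hζ.toInteger_isPrimitiveRoot) (by decide)).unit) * S.u₃ * S.u₂⁻¹ := rfl
noncomputable def u₅ := -((IsPrimitiveRoot.isUnit (hζ.toInteger_isPrimitiveRoot) (by decide)).unit) ^ 2 * S.u₁ * S.u₂⁻¹
lemma u₅_def : S.u₅ = -((IsPrimitiveRoot.isUnit (hζ.toInteger_isPrimitiveRoot) (by decide)).unit) ^ 2 * S.u₁ * S.u₂⁻¹ := rfl

lemma formula2 :
    S.Y ^ 3 + S.u₄ * S.Z ^ 3 = S.u₅ * ((hζ.toInteger - 1) ^ 2 * ((hζ.toInteger - 1) ^ (S.multiplicity - 1) * S.X) ^ 3) := by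
  rw [u₅_def, neg_mul, neg_mul, Units.val_neg, neg_mul, eq_neg_iff_add_eq_zero, add_assoc,
    add_comm (S.u₄ * S.Z ^ 3), ← add_assoc, add_comm (S.Y ^ 3)]
  apply mul_right_cancel₀ <| mul_ne_zero
    (mul_ne_zero hζ.zeta_sub_one_prime'.ne_zero S.u₂.isUnit.ne_zero) (Units.isUnit ((IsPrimitiveRoot.isUnit (hζ.toInteger_isPrimitiveRoot) (by decide)).unit)).ne_zero
  simp only [zero_mul, add_mul]
  rw [← formula1 S]
  congrm ?_ + ?_ + ?_
  · have : (S.multiplicity-1)*3+1 + 2 = 3*S.multiplicity := by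
      have := S.one_le_multiplicity; lia
    calc _ = S.X^3 *(S.u₂*S.u₂⁻¹)*(((IsPrimitiveRoot.isUnit (hζ.toInteger_isPrimitiveRoot) (by decide)).unit)^3*S.u₁)*((hζ.toInteger - 1)^((S.multiplicity-1)*3)*(hζ.toInteger - 1) * (hζ.toInteger - 1) ^ 2) := by
          push_cast; ring
    _ = S.X^3*S.u₁*(hζ.toInteger - 1)^(3*S.multiplicity) := by
      rw [← pow_succ, ← pow_add, this]
      simp [hζ.toInteger_cube_eq_one]
  · ring
  · simp only [u₄_def, inv_eq_one_div, mul_div_assoc', mul_one, val_div_eq_divp, Units.val_mul,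
      IsUnit.unit_spec, divp_mul_eq_mul_divp, divp_eq_iff_mul_eq]
    ring

lemma lambda_sq_div_u₅_mul :
    (hζ.toInteger - 1) ^ 2 ∣ S.u₅ * ((hζ.toInteger - 1) ^ 2 * ((hζ.toInteger - 1) ^ (S.multiplicity - 1) * S.X) ^ 3) :=
  ⟨S.u₅ * ((hζ.toInteger - 1) ^ (S.multiplicity - 1) * S.X) ^ 3, by ring⟩

lemma u₄_eq_one_or_neg_one : S.u₄ = 1 ∨ S.u₄ = -1 := by
  have : (hζ.toInteger - 1) ^ 2 ∣ (hζ.toInteger - 1) ^ 4 := ⟨(hζ.toInteger - 1) ^ 2, by ring⟩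
  have h := S.lambda_sq_div_u₅_mul
  apply IsCyclotomicExtension.Rat.Three.eq_one_or_neg_one_of_unit_of_congruent hζ
  rcases h with ⟨X, hX⟩
  rcases lambda_pow_four_dvd_cube_sub_one_or_add_one_of_lambda_not_dvd hζ S.lambda_not_dvd_Y with
    HY | HY <;> rcases lambda_pow_four_dvd_cube_sub_one_or_add_one_of_lambda_not_dvd
      hζ S.lambda_not_dvd_Z with HZ | HZ <;> replace HY := this.trans HY <;> replace HZ :=
      this.trans HZ <;> rcases HY with ⟨Y, hY⟩ <;> rcases HZ with ⟨Z, hZ⟩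
  · refine ⟨-1, X - Y - S.u₄ * Z, ?_⟩
    rw [show (hζ.toInteger - 1) ^ 2 * (X - Y - S.u₄ * Z) = (hζ.toInteger - 1) ^ 2 * X - (hζ.toInteger - 1) ^ 2 * Y - S.u₄ * ((hζ.toInteger - 1) ^ 2 * Z) by ring,
      ← hX, ← hY, ← hZ, ← formula2]
    ring
  · refine ⟨1, -X + Y + S.u₄ * Z, ?_⟩
    rw [show (hζ.toInteger - 1) ^ 2 * (-X + Y + S.u₄ * Z) = -((hζ.toInteger - 1) ^ 2 * X - (hζ.toInteger - 1) ^ 2 * Y - S.u₄ * ((hζ.toInteger - 1) ^ 2 * Z)) by ring,
      ← hX, ← hY, ← hZ, ← formula2]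
    ring
  · refine ⟨1, X - Y - S.u₄ * Z, ?_⟩
    rw [show (hζ.toInteger - 1) ^ 2 * (X - Y - S.u₄ * Z) = (hζ.toInteger - 1) ^ 2 * X - (hζ.toInteger - 1) ^ 2 * Y - S.u₄ * ((hζ.toInteger - 1) ^ 2 * Z) by ring,
      ← hX, ← hY, ← hZ, ← formula2]
    ring
  · refine ⟨-1, -X + Y + S.u₄ * Z, ?_⟩
    rw [show (hζ.toInteger - 1) ^ 2 * (-X + Y + S.u₄ * Z) = -((hζ.toInteger - 1) ^ 2 * X - (hζ.toInteger - 1) ^ 2 * Y - S.u₄ * ((hζ.toInteger - 1) ^ 2 * Z)) by ring,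
      ← hX, ← hY, ← hZ, ← formula2]
    ring

lemma u₄_sq : S.u₄ ^ 2 = 1 := by
  rcases S.u₄_eq_one_or_neg_one with h | h <;> simp [h]

lemma formula3 :
    S.Y ^ 3 + (S.u₄ * S.Z) ^ 3 = S.u₅ * ((hζ.toInteger - 1) ^ 2 * ((hζ.toInteger - 1) ^ (S.multiplicity - 1) * S.X) ^ 3) :=
  calc S.Y ^ 3 + (S.u₄ * S.Z) ^ 3 = S.Y ^ 3 + S.u₄ ^ 2 * S.u₄ * S.Z ^ 3 := by ring
  _ = S.Y ^ 3 + S.u₄ * S.Z ^ 3 := by simp [← Units.val_pow_eq_pow_val, S.u₄_sq]
  _ = S.u₅ * ((hζ.toInteger - 1) ^ 2 * ((hζ.toInteger - 1) ^ (S.multiplicity - 1) * S.X) ^ 3) := S.formula2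

noncomputable def Solution'_descent : Solution' hζ where
  a := S.Y
  b := S.u₄ * S.Z
  c := (hζ.toInteger - 1) ^ (S.multiplicity - 1) * S.X
  u := S.u₅
  ha := S.lambda_not_dvd_Y
  hb := fun h ↦ S.lambda_not_dvd_Z <| Units.dvd_mul_left.1 h
  hc := fun h ↦ S.X_ne_zero <| by simpa [hζ.zeta_sub_one_prime'.ne_zero] using h
  coprime := (isCoprime_mul_unit_left_right S.u₄.isUnit _ _).2 S.isCoprime_Y_Z
  H := formula3 S

lemma Solution'_descent_multiplicity : S.Solution'_descent.multiplicity = S.multiplicity - 1 := by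
  refine multiplicity_eq_of_dvd_of_not_dvd
    (by simp [Solution'_descent]) (fun h ↦ S.lambda_not_dvd_X ?_)
  obtain ⟨k, hk : (hζ.toInteger - 1) ^ (S.multiplicity - 1) * S.X = (hζ.toInteger - 1) ^ (S.multiplicity - 1 + 1) * k⟩ := h
  rw [pow_succ, mul_assoc] at hk
  simp only [mul_eq_mul_left_iff, pow_eq_zero_iff', hζ.zeta_sub_one_prime'.ne_zero, ne_eq,
    false_and, or_false] at hk
  simp [hk]

lemma Solution'_descent_multiplicity_lt :
    (Solution'_descent S).multiplicity < S.multiplicity := by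
  rw [Solution'_descent_multiplicity S, Nat.sub_one]
  exact Nat.pred_lt <| by have := S.one_le_multiplicity; lia

theorem exists_Solution_multiplicity_lt :
    ∃ S₁ : Solution hζ, S₁.multiplicity < S.multiplicity := by
  obtain ⟨S', hS'⟩ := exists_Solution_of_Solution' (Solution'_descent S)
  exact ⟨S', hS' ▸ Solution'_descent_multiplicity_lt S⟩

end Solution

theorem no_solution [NumberField K] [IsCyclotomicExtension {3} ℚ K] (S' : Solution' hζ) :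
    False := by
  obtain ⟨S, -⟩ := exists_Solution_of_Solution' S'
  obtain ⟨Smin, hSmin⟩ := S.exists_minimal
  obtain ⟨Sfin, hSfin⟩ := Smin.exists_Solution_multiplicity_lt
  linarith [hSmin Sfin]

end Pool.Agent.Q6.Cube3
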