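import Pool.Agent.Q6.Cube3

/-!
# `x³ + y³ = 3 z³` has only solutions with `z = 0`, over `ℤ` and over `ℚ`
-/

namespace Pool.Agent.Q6.Cube3

open NumberField IsCyclotomicExtension.Rat.Three

theorem int_coprime_aux {K : Type*} [Field K] [NumberField K] [IsCyclotomicExtension {3} ℚ K]
    {ζ : K} (hζ : IsPrimitiveRoot ζ 3) {a b c : ℤ} (hc : c ≠ 0) (hab : IsCoprime a b)
    (h : a ^ 3 + b ^ 3 = 3 * c ^ 3) : False := by
  have h3a : ¬ (3 : ℤ) ∣ a := by
    intro h1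
    have h2 : (3 : ℤ) ∣ b ^ 3 := by
      have : b ^ 3 = 3 * c ^ 3 - a ^ 3 := by linarith
      rw [this]
      exact dvd_sub (dvd_mul_right _ _) (dvd_pow h1 (by norm_num))
    have h3 : (3 : ℤ) ∣ b := Int.prime_three.dvd_of_dvd_pow h2
    have := hab.isUnit_of_dvd' h1 h3
    rw [Int.isUnit_iff] at this
    omega
  have h3b : ¬ (3 : ℤ) ∣ b := by
    intro h1
    have h2 : (3 : ℤ) ∣ a ^ 3 := by
      have : a ^ 3 = 3 * c ^ 3 - b ^ 3 := by linarith
      rw [this]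
      exact dvd_sub (dvd_mul_right _ _) (dvd_pow h1 (by norm_num))
    have h3 : (3 : ℤ) ∣ a := Int.prime_three.dvd_of_dvd_pow h2
    exact h3a h3
  have key : ∀ n : ℤ, ¬ (3 : ℤ) ∣ n → ¬ (hζ.toInteger - 1) ∣ (n : 𝓞 K) := by
    intro n hn hdvd
    apply hn
    rwa [← Ideal.norm_dvd_iff (hζ.prime_norm_toInteger_sub_one_of_prime_ne_two' (by decide)),
      hζ.norm_toInteger_sub_one_of_prime_ne_two' (by decide)] at hdvd
  let η := (IsPrimitiveRoot.isUnit (hζ.toInteger_isPrimitiveRoot) (by decide)).unit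
  have hη : (η : 𝓞 K) = hζ.toInteger := rfl
  have heta : (hζ.toInteger) ^ 2 + hζ.toInteger + 1 = 0 := by
    have := eta_sq hζ
    rw [← hη]
    linear_combination this
  refine no_solution (hζ := hζ)
    { a := a
      b := b
      c := c
      u := -η ^ 2
      ha := key a h3a
      hb := key b h3b
      hc := by exact_mod_cast hc
      coprime := IsCoprime.intCast hab
      H := ?_ }
  have h' : (a : 𝓞 K) ^ 3 + (b : 𝓞 K) ^ 3 = 3 * (c : 𝓞 K) ^ 3 := by exact_mod_cast h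
  rw [h', Units.val_neg, Units.val_pow_eq_pow_val, hη]
  have e : -(hζ.toInteger) ^ 2 * (hζ.toInteger - 1) ^ 2 = (3 : 𝓞 K) := by
    linear_combination (-(hζ.toInteger) ^ 2 + 3 * hζ.toInteger - 3) * heta
  linear_combination (-(c : 𝓞 K) ^ 3) * e

theorem int_coprime {a b c : ℤ} (hc : c ≠ 0) (hab : IsCoprime a b)
    (h : a ^ 3 + b ^ 3 = 3 * c ^ 3) : False :=
  haveI : IsCyclotomicExtension {3} ℚ (CyclotomicField 3 ℚ) :=
    CyclotomicField.isCyclotomicExtension 3 ℚ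
  int_coprime_aux (K := CyclotomicField 3 ℚ) (IsCyclotomicExtension.zeta_spec 3 ℚ _) hc hab h

theorem int_eq_zero {a b c : ℤ} (h : a ^ 3 + b ^ 3 = 3 * c ^ 3) : c = 0 := by
  by_contra hc
  obtain ⟨a', b', hcop, ha', hb'⟩ : ∃ a' b' : ℤ, IsCoprime a' b' ∧ a = a' * (Int.gcd a b : ℤ) ∧
      b = b' * (Int.gcd a b : ℤ) := by
    have hg : 0 < Int.gcd a b := by
      rcases Nat.eq_zero_or_pos (Int.gcd a b) with h0 | h0
      · rw [Int.gcd_eq_zero_iff] at h0
        exfalso; apply hc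
        rw [h0.1, h0.2] at h
        have : c ^ 3 = 0 := by linarith
        exact pow_eq_zero_iff (by norm_num) |>.1 this
      · exact h0
    obtain ⟨m, n, h1, h2, h3⟩ := Int.exists_gcd_one hg
    exact ⟨m, n, Int.isCoprime_iff_gcd_eq_one.2 h1, h2, h3⟩
  set g : ℤ := (Int.gcd a b : ℤ) with hg
  have hg0 : g ≠ 0 := by
    intro h0
    rw [h0, mul_zero] at ha' hb'
    apply hc
    rw [ha', hb'] at h
    have : c ^ 3 = 0 := by linarith
    exact pow_eq_zero_iff (by norm_num) |>.1 this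
  have h1 : g ^ 3 * (a' ^ 3 + b' ^ 3) = 3 * c ^ 3 := by
    rw [← h]
    conv_rhs => rw [ha', hb']
    ring
  -- `g ∣ 3 c`
  have h2 : g ^ 3 ∣ (3 * c) ^ 3 := ⟨9 * (a' ^ 3 + b' ^ 3), by linear_combination (-9) * h1⟩
  rw [Int.pow_dvd_pow_iff (by norm_num)] at h2
  obtain ⟨t, ht⟩ := h2
  have h3 : t ^ 3 = 9 * (a' ^ 3 + b' ^ 3) := by
    have : g ^ 3 * t ^ 3 = g ^ 3 * (9 * (a' ^ 3 + b' ^ 3)) := by
      linear_combination (-9) * h1 - (9 * c ^ 2 + 3 * c * (g * t) + (g * t) ^ 2) * ht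
    exact mul_left_cancel₀ (pow_ne_zero 3 hg0) this
  have h4 : (3 : ℤ) ∣ t := by
    apply Int.prime_three.dvd_of_dvd_pow (n := 3)
    rw [h3]; exact ⟨3 * (a' ^ 3 + b' ^ 3), by ring⟩
  obtain ⟨s, hs⟩ := h4
  have h5 : c = g * s := by
    have : 3 * c = 3 * (g * s) := by rw [ht, hs]; ring
    linarith
  have h6 : a' ^ 3 + b' ^ 3 = 3 * s ^ 3 := by
    have : 9 * (a' ^ 3 + b' ^ 3) = 9 * (3 * s ^ 3) := by rw [← h3, hs]; ring
    linarith
  refine int_coprime (c := s) ?_ hcop h6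
  intro h0
  apply hc; rw [h5, h0, mul_zero]

theorem rat_eq_zero {x y z : ℚ} (h : x ^ 3 + y ^ 3 = 3 * z ^ 3) : z = 0 := by
  have hx : x = x.num / x.den := (Rat.num_div_den x).symm
  have hy : y = y.num / y.den := (Rat.num_div_den y).symm
  have hz : z = z.num / z.den := (Rat.num_div_den z).symm
  have dx : (x.den : ℚ) ≠ 0 := by exact_mod_cast x.den_ne_zero
  have dy : (y.den : ℚ) ≠ 0 := by exact_mod_cast y.den_ne_zero
  have dz : (z.den : ℚ) ≠ 0 := by exact_mod_cast z.den_ne_zero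
  have key : ((x.num * y.den * z.den : ℤ)) ^ 3 + (y.num * x.den * z.den : ℤ) ^ 3
      = 3 * (z.num * x.den * y.den : ℤ) ^ 3 := by
    have : ((x.num : ℚ) * y.den * z.den) ^ 3 + ((y.num : ℚ) * x.den * z.den) ^ 3
        = 3 * ((z.num : ℚ) * x.den * y.den) ^ 3 := by
      have e1 : (x.num : ℚ) = x * x.den := (Rat.mul_den_eq_num x).symm
      have e2 : (y.num : ℚ) = y * y.den := (Rat.mul_den_eq_num y).symm
      have e3 : (z.num : ℚ) = z * z.den := (Rat.mul_den_eq_num z).symm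
      rw [e1, e2, e3]
      linear_combination ((x.den : ℚ) * y.den * z.den) ^ 3 * h
    exact_mod_cast this
  have h0 := int_eq_zero key
  have h1 : z.num = 0 := by
    rcases mul_eq_zero.1 h0 with h1 | h1
    · rcases mul_eq_zero.1 h1 with h2 | h2
      · exact h2
      · exfalso; exact x.den_ne_zero (by exact_mod_cast h2)
    · exfalso; exact y.den_ne_zero (by exact_mod_cast h1)
  exact Rat.num_eq_zero.1 h1

end Pool.Agent.Q6.Cube3
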