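import Pool.Agent.Q6.Close
import Pool.Agent.Q6.Cube3Z

/-!
# Good twists: `y² = x³ + b` with a point with `3 v₂(x) < v₂(b)`
-/

namespace Pool.Agent.Q6.Mord

open WeierstrassCurve Val

/-- `y² = x³ + b` has a rational point with `3 v₂(x) < v₂(b)` -/
def Good (b : ℚ) : Prop :=
  b ≠ 0 ∧ ∃ x y : ℚ, ∃ v : ℤ, y ^ 2 = x ^ 3 + b ∧ V 2 x v ∧ 3 * v < padicValRat 2 b

theorem rank_pos_of_NT {b : ℚ} {P : (E b).Point} (h : NT P) :
    0 < Module.rank ℤ (E b).Point := by
  rw [pos_iff_ne_zero, Ne, rank_eq_zero_iff]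
  push Not
  refine ⟨P, fun a ha h0 => ?_⟩
  have h1 : a.natAbs • P = 0 := by
    rcases Int.natAbs_eq a with h2 | h2
    · rw [h2, natCast_zsmul] at h0; exact h0
    · rw [h2, neg_smul, natCast_zsmul, neg_eq_zero] at h0; exact h0
  exact h a.natAbs (Int.natAbs_ne_zero.2 ha) h1

theorem exists_NT {b : ℚ} (h : 0 < Module.rank ℤ (E b).Point) : ∃ P : (E b).Point, NT P := by
  rw [pos_iff_ne_zero, Ne, rank_eq_zero_iff] at h
  push Not at h
  obtain ⟨P, hP⟩ := h
  refine ⟨P, fun n hn h0 => hP n (by exact_mod_cast hn) ?_⟩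
  rw [natCast_zsmul]; exact h0

theorem Good.rank {b : ℚ} (h : Good b) : 0 < Module.rank ℤ (E b).Point := by
  obtain ⟨hb, x, y, v, he, hv, hlt⟩ := h
  exact rank_pos_of_NT (P := .some x y (nons hb he))
    (NT_of_two hb (Affine.Point.some_ne_zero _) hv hlt)

theorem V27 : V 2 (-27 : ℚ) 0 := by
  refine ⟨by norm_num, ?_⟩
  have : ((-27 : ℚ)) = ((-27 : ℤ) : ℚ) := by norm_num
  rw [this, padicValRat.of_int]
  have : padicValInt 2 (-27) = 0 := by
    rw [padicValInt.eq_zero_iff]; right; right; decide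
  rw [this]; rfl

theorem V3 : V 2 (3 : ℚ) 0 := by
  refine ⟨by norm_num, ?_⟩
  have : ((3 : ℚ)) = ((3 : ℤ) : ℚ) := by norm_num
  rw [this, padicValRat.of_int]
  have : padicValInt 2 3 = 0 := by
    rw [padicValInt.eq_zero_iff]; right; right; decide
  rw [this]; rfl

theorem V4 : V 2 (4 : ℚ) 2 := by
  refine ⟨by norm_num, ?_⟩
  have : (4 : ℚ) = 2 ^ 2 := by norm_num
  have h2 : padicValRat 2 2 = 1 := by
    have := padicValRat.self (p := 2) one_lt_two
    simpa using this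
  rw [this, padicValRat.pow, h2]
  norm_num

theorem Good.iso {b : ℚ} (h : Good b) : Good (-27 * b) := by
  obtain ⟨hb, x, y, v, he, hv, hlt⟩ := h
  have hx : x ≠ 0 := hv.1
  have hB : V 2 b (padicValRat 2 b) := V.self hb
  refine ⟨by simp [hb], (x ^ 3 + 4 * b) / x ^ 2, y * (x ^ 3 - 8 * b) / x ^ 3, v, ?_, ?_, ?_⟩
  · field_simp
    rw [he]; ring
  · have h1 : V 2 (x ^ 3 + 4 * b) ((3 : ℕ) * v) :=
      (hv.pow 3).add ((G_ofNat 4).mul (hB.toG le_rfl)) (by push_cast; omega)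
    exact (h1.div (hv.pow 2)).cast (by push_cast; ring)
  · have := (V27.mul hB).2
    omega

theorem Good.scale {b : ℚ} (h : Good b) {u : ℚ} (hu : u ≠ 0) : Good (b * u ^ 6) := by
  obtain ⟨hb, x, y, v, he, hv, hlt⟩ := h
  have hB : V 2 b (padicValRat 2 b) := V.self hb
  have hU : V 2 u (padicValRat 2 u) := V.self hu
  refine ⟨mul_ne_zero hb (pow_ne_zero _ hu), x * u ^ 2, y * u ^ 3, _, ?_, hv.mul (hU.pow 2), ?_⟩
  · linear_combination u ^ 6 * he
  · have := (hB.mul (hU.pow 6)).2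
    push_cast at this ⊢
    omega

/-- a rational number all of whose valuations are divisible by three is a cube -/
theorem exists_cube {t : ℚ} (ht : t ≠ 0)
    (h : ∀ (q : ℕ) [Fact q.Prime], (3 : ℤ) ∣ padicValRat q t) : ∃ z : ℚ, t = z ^ 3 := by
  -- `n = |num| · den²` is a cube
  have hnum : t.num ≠ 0 := Rat.num_ne_zero.2 ht
  have hden : t.den ≠ 0 := t.den_ne_zero
  let n : ℕ := t.num.natAbs * t.den ^ 2
  have hn : n ≠ 0 := mul_ne_zero (Int.natAbs_ne_zero.2 hnum) (pow_ne_zero _ hden)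
  have hdiv : ∀ q : ℕ, 3 ∣ n.factorization q := by
    intro q
    by_cases hq : q.Prime
    · have : Fact q.Prime := ⟨hq⟩
      have h1 := h q
      have h2 : padicValRat q t = (padicValNat q t.num.natAbs : ℤ) - padicValNat q t.den := rfl
      have h3 : n.factorization q = padicValNat q t.num.natAbs + 2 * padicValNat q t.den := by
        rw [Nat.factorization_def _ hq, padicValNat.mul (Int.natAbs_ne_zero.2 hnum)
          (pow_ne_zero _ hden), padicValNat.pow]
      rw [h3]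
      omega
    · rw [Nat.factorization_eq_zero_of_not_prime n hq]
      exact dvd_zero 3
  obtain ⟨m, hm⟩ : ∃ m : ℕ, n = m ^ 3 := by
    refine ⟨n.factorization.prod fun p k => p ^ (k / 3), ?_⟩
    conv_lhs => rw [← Nat.prod_factorization_pow_eq_self hn]
    unfold Finsupp.prod
    rw [← Finset.prod_pow]
    refine Finset.prod_congr rfl fun q _ => ?_
    rw [← pow_mul, Nat.div_mul_cancel (hdiv q)]
  have hd0 : (t.den : ℚ) ≠ 0 := by exact_mod_cast hden
  have hm' : ((t.num.natAbs : ℕ) : ℚ) * (t.den : ℚ) ^ 2 = (m : ℚ) ^ 3 := by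
    exact_mod_cast hm
  rcases Int.natAbs_eq t.num with h1 | h1
  · refine ⟨m / t.den, ?_⟩
    have h2 : (t.num : ℚ) = ((t.num.natAbs : ℕ) : ℚ) := by
      conv_lhs => rw [h1]
      rfl
    rw [div_pow, ← hm', ← h2]
    field_simp
    exact (Rat.mul_den_eq_num t)
  · refine ⟨-m / t.den, ?_⟩
    have h2 : (t.num : ℚ) = -((t.num.natAbs : ℕ) : ℚ) := by
      conv_lhs => rw [h1]
      rw [Int.cast_neg, Int.cast_natCast]
    have h3 : (-(m : ℚ)) ^ 3 = t.num * (t.den : ℚ) ^ 2 := by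
      rw [h2]; linear_combination hm'
    rw [div_pow, h3]
    field_simp
    exact (Rat.mul_den_eq_num t)

end Pool.Agent.Q6.Mord
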