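import Mathlib

/-!
# Mordell curves `y² = x³ + b` over `ℚ`: `x`-coordinates of sums, `p`-adic behaviour
-/

namespace Pool.Agent.Q6.Mord

open WeierstrassCurve Filter Topology

/-- the curve `y² = x³ + b` -/
abbrev E (b : ℚ) : WeierstrassCurve.Affine ℚ := { a₁ := 0, a₂ := 0, a₃ := 0, a₄ := 0, a₆ := b }

theorem eqn {b x y : ℚ} (h : (E b).Nonsingular x y) : y ^ 2 = x ^ 3 + b := by
  have := (Affine.equation_iff x y).1 h.1
  simpa using this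

theorem nons {b x y : ℚ} (hb : b ≠ 0) (h : y ^ 2 = x ^ 3 + b) : (E b).Nonsingular x y := by
  rw [Affine.nonsingular_iff, Affine.equation_iff]
  refine ⟨by simpa using h, ?_⟩
  by_contra hcon
  push Not at hcon
  simp only [zero_mul, mul_zero, add_zero, sub_zero] at hcon
  obtain ⟨h1, h2⟩ := hcon
  have hx : x = 0 := by
    have : x ^ 2 = 0 := by linarith
    exact pow_eq_zero_iff (by norm_num) |>.1 this
  have hy : y = 0 := by linarith
  apply hb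
  rw [hx, hy] at h
  linarith

/-- `x`-coordinate -/
def X {b : ℚ} : (E b).Point → ℚ
  | .zero => 0
  | .some x _ _ => x

theorem sum_diff {b : ℚ} {P Q : (E b).Point} (hP : P ≠ 0) (hQ : Q ≠ 0) (hx : X P ≠ X Q) :
    P + Q ≠ 0 ∧ P - Q ≠ 0 ∧
    X (P + Q) * X (P - Q) * (X P - X Q) ^ 2 = (X P * X Q) ^ 2 - 4 * b * (X P + X Q) ∧
    (X (P + Q) + X (P - Q)) * (X P - X Q) ^ 2 = 2 * (X P * X Q * (X P + X Q) + 2 * b) := by
  rcases P with _ | ⟨x₁, y₁, h₁⟩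
  · exact absurd rfl hP
  rcases Q with _ | ⟨x₂, y₂, h₂⟩
  · exact absurd rfl hQ
  have hx' : x₁ ≠ x₂ := hx
  have e₁ := eqn h₁
  have e₂ := eqn h₂
  have hd : x₁ - x₂ ≠ 0 := sub_ne_zero.2 hx'
  rw [sub_eq_add_neg, Affine.Point.neg_some, Affine.Point.add_of_X_ne hx',
    Affine.Point.add_of_X_ne hx']
  refine ⟨Affine.Point.some_ne_zero _, Affine.Point.some_ne_zero _, ?_, ?_⟩
  · show (Affine.addX (E b) x₁ x₂ ((E b).slope x₁ x₂ y₁ y₂)) *
      (Affine.addX (E b) x₁ x₂ ((E b).slope x₁ x₂ y₁ ((E b).negY x₂ y₂))) * (x₁ - x₂) ^ 2 =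
        (x₁ * x₂) ^ 2 - 4 * b * (x₁ + x₂)
    rw [Affine.slope_of_X_ne hx', Affine.slope_of_X_ne hx']
    simp only [Affine.addX, Affine.negY]
    field_simp
    have hy1 : y₁ ^ 2 = x₁ ^ 3 + b := e₁
    have hy2 : y₂ ^ 2 = x₂ ^ 3 + b := e₂
    have hy14 : y₁ ^ 4 = (x₁ ^ 3 + b) ^ 2 := by rw [← hy1]; ring
    have hy24 : y₂ ^ 4 = (x₂ ^ 3 + b) ^ 2 := by rw [← hy2]; ring
    ring_nf
    simp only [hy1, hy2, hy14, hy24]
    ring
  · show ((Affine.addX (E b) x₁ x₂ ((E b).slope x₁ x₂ y₁ y₂)) +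
      (Affine.addX (E b) x₁ x₂ ((E b).slope x₁ x₂ y₁ ((E b).negY x₂ y₂)))) * (x₁ - x₂) ^ 2 =
        2 * (x₁ * x₂ * (x₁ + x₂) + 2 * b)
    rw [Affine.slope_of_X_ne hx', Affine.slope_of_X_ne hx']
    simp only [Affine.addX, Affine.negY]
    field_simp
    have hy1 : y₁ ^ 2 = x₁ ^ 3 + b := e₁
    have hy2 : y₂ ^ 2 = x₂ ^ 3 + b := e₂
    ring_nf
    simp only [hy1, hy2]
    ring

theorem dbl {b : ℚ} {P : (E b).Point} (hP : P ≠ 0) (h2 : X P ^ 3 + b ≠ 0) :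
    P + P ≠ 0 ∧ X (P + P) * (4 * (X P ^ 3 + b)) = X P * (X P ^ 3 - 8 * b) := by
  rcases P with _ | ⟨x, y, h⟩
  · exact absurd rfl hP
  have e := eqn h
  have h2' : x ^ 3 + b ≠ 0 := h2
  have hy : y ≠ 0 := by
    intro h0; rw [h0] at e; apply h2'; linarith
  have hy' : y ≠ (E b).negY x y := by
    simp only [Affine.negY]
    intro h0
    apply hy; linarith
  rw [Affine.Point.add_self_of_Y_ne hy']
  refine ⟨Affine.Point.some_ne_zero _, ?_⟩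
  show (Affine.addX (E b) x x ((E b).slope x x y y)) * (4 * (x ^ 3 + b)) = x * (x ^ 3 - 8 * b)
  rw [Affine.slope_of_Y_ne rfl hy']
  have hb : b = y ^ 2 - x ^ 3 := by linarith
  have hden : y - (E b).negY x y = 2 * y := by simp only [Affine.negY]; ring
  rw [hden, ← e]
  simp only [Affine.addX]
  field_simp
  rw [hb]
  ring

theorem X_eq {b : ℚ} {P Q : (E b).Point} (hP : P ≠ 0) (hQ : Q ≠ 0) (h : X P = X Q) :
    P = Q ∨ P = -Q := by
  rcases P with _ | ⟨x₁, y₁, h₁⟩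
  · exact absurd rfl hP
  rcases Q with _ | ⟨x₂, y₂, h₂⟩
  · exact absurd rfl hQ
  exact Affine.Point.X_eq_iff.1 h

theorem X_neg {b : ℚ} (P : (E b).Point) : X (-P) = X P := by
  rcases P with _ | ⟨x₁, y₁, h₁⟩
  · rfl
  · rfl

theorem X_eqn {b : ℚ} {P : (E b).Point} (hP : P ≠ 0) : ∃ y, y ^ 2 = X P ^ 3 + b := by
  rcases P with _ | ⟨x, y, h⟩
  · exact absurd rfl hP
  exact ⟨y, eqn h⟩

end Pool.Agent.Q6.Mord
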