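import Pool.Agent.Q6.MordMain

/-!
# Choice of the two points
-/

namespace Pool.Agent.Q6.Mord

open WeierstrassCurve Val

theorem V3' {ℓ : ℕ} : V ℓ (3 : ℚ) (padicValRat ℓ 3) := V.self (by norm_num)
theorem V4' {ℓ : ℕ} : V ℓ (4 : ℚ) (padicValRat ℓ 4) := V.self (by norm_num)

theorem choose_P0 {a : ℚ} (ha : a ≠ 0) {P : (E a).Point} (hP : NT P) (c : ℤ)
    (hc : 3 * c < padicValRat 2 a) :
    ∃ n : ℕ, n ≠ 0 ∧ Cl 2 c (n • P) ∧ ¬ ∃ z : ℚ, (4 * gx a (X (n • P)) ^ 3 - 3 * a) / a = z ^ 3 := by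
  by_cases hcube : ∃ d : ℚ, a / 4 = d ^ 3
  · obtain ⟨d, hd⟩ := hcube
    obtain ⟨n, hn, hcl⟩ := near' ha hP 2 c
    refine ⟨n, hn, hcl, ?_⟩
    rintro ⟨z, hz⟩
    have had : a = 4 * d ^ 3 := by linarith
    have h1 : (gx a (X (n • P))) ^ 3 + (-(d * z)) ^ 3 = 3 * d ^ 3 := by
      rw [div_eq_iff ha] at hz
      linear_combination hz / 4 + (3 / 4 + z ^ 3 / 4) * had
    have h2 := Cube3.rat_eq_zero h1
    apply ha
    rw [had, h2]; ring
  · have h4 : a / 4 ≠ 0 := div_ne_zero ha (by norm_num)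
    obtain ⟨q, hq, hq3⟩ : ∃ q : ℕ, ∃ _ : Fact q.Prime, ¬ (3 : ℤ) ∣ padicValRat q (a / 4) := by
      by_contra hcon
      push Not at hcon
      exact hcube (exists_cube h4 (fun q _ => hcon q inferInstance))
    have hA : V q a (padicValRat q a) := V.self ha
    have h4q : V q (4 : ℚ) (padicValRat q 4) := V4'
    have h3q : V q (3 : ℚ) (padicValRat q 3) := V3'
    set α := padicValRat q a with hα
    set f := padicValRat q 4 with hf
    set t := padicValRat q 3 with ht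
    have hdiv : padicValRat q (a / 4) = α - f := (hA.div h4q).2
    rw [hdiv] at hq3
    obtain ⟨n, hn, hcl⟩ := near' ha hP 2 c
    obtain ⟨c', h1', h2'⟩ : ∃ c' : ℤ, 3 * c' < α ∧ f + 3 * (c' - t) < t + α :=
      ⟨min (α.natAbs * (-1) - 1) (-(α.natAbs : ℤ) - f.natAbs - 4 * t.natAbs - 1), by omega, by omega⟩
    obtain ⟨m, hm, hcl'⟩ := near' ha (hP.smul hn) q c'
    refine ⟨m * n, mul_ne_zero hm hn, ?_, ?_⟩
    · rw [mul_smul]; exact hcl.nsmul ha hc m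
    · rintro ⟨z, hz⟩
      rw [mul_smul] at hz
      obtain ⟨w, hw, hV⟩ := hcl' ((hP.smul hn).smul hm).ne_zero
      have hg := g_V ha hV (by omega)
      have e1 : V q (4 * gx a (X (m • n • P)) ^ 3 - 3 * a) (f + (3 : ℕ) * (w - t)) :=
        (h4q.mul (hg.pow 3)).sub ((h3q.mul hA).toG le_rfl) (by push_cast; omega)
      have e2 := e1.div hA
      rw [hz] at e2
      have hz0 : z ≠ 0 := by
        intro h0; apply e2.1; rw [h0]; ring
      have e3 := ((V.self (p := q) hz0).pow 3).unique e2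
      push_cast at e3
      apply hq3
      omega

theorem core {a : ℚ} (ha : a ≠ 0) (hr : 0 < Module.rank ℤ (E a).Point) :
    Good a ∧ ∃ ρ : ℚ, ρ ≠ 0 ∧ (¬ ∃ z : ℚ, ρ = z ^ 3) ∧ Good (-27 * a * ρ ^ 4) ∧
      Good (-27 * a * ρ⁻¹ ^ 4) := by
  obtain ⟨P, hP⟩ := exists_NT hr
  have hA2 : V 2 a (padicValRat 2 a) := V.self ha
  set α := padicValRat 2 a with hα
  obtain ⟨c, hc⟩ : ∃ c : ℤ, c = -(α.natAbs : ℤ) - 2 := ⟨_, rfl⟩
  have hc1 : 3 * c < α := by omega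
  have hc2 : 9 * c + 4 < 3 * α := by omega
  have hc3 : 2 + 3 * c < α := by omega
  obtain ⟨n, hn, hcl, hcub⟩ := choose_P0 ha hP c hc1
  have hP0 := hP.smul hn
  set P0 := n • P with hP0def
  obtain ⟨w0, hw0, hx0⟩ := hcl hP0.ne_zero
  obtain ⟨y0, hy0⟩ := X_eqn hP0.ne_zero
  refine ⟨⟨ha, X P0, y0, w0, hy0, hx0, by omega⟩, ?_⟩
  set X0 := gx a (X P0) with hX0
  have hgX0 : V 2 X0 w0 := by
    have h := g_V ha hx0 (by omega)
    exact h.cast (by rw [V3.2]; ring)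
  have hG0 := g_eq hx0.1 hy0
  rw [← hX0] at hG0
  set Y0 := gy a (X P0) y0 with hY0
  -- `p`
  set p := X0 ^ 3 - a with hp
  have hpV : V 2 p (3 * w0) :=
    ((hgX0.pow 3).cast (by push_cast; ring)).sub (hA2.toG le_rfl) (by omega)
  have hk2 : V 2 (a + 4 * p) (2 + 3 * w0) := by
    have e : a + 4 * p = 4 * X0 ^ 3 - 3 * a := by rw [hp]; ring
    rw [e]
    exact ((V4.mul (hgX0.pow 3)).cast (by push_cast; ring)).sub
      (((V3.mul hA2).cast (zero_add _)).toG le_rfl) (by omega)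
  have hτ0 : (a + 4 * p) / a ≠ 0 := div_ne_zero hk2.1 ha
  obtain ⟨q, hq, hq3⟩ : ∃ q : ℕ, ∃ _ : Fact q.Prime,
      ¬ (3 : ℤ) ∣ padicValRat q ((a + 4 * p) / a) := by
    by_contra hcon
    push Not at hcon
    obtain ⟨z, hz⟩ := exists_cube hτ0 (fun q _ => hcon q inferInstance)
    apply hcub
    refine ⟨z, ?_⟩
    rw [← hz, hp]; ring
  have hAq : V q a (padicValRat q a) := V.self ha
  have hpq : V q p (padicValRat q p) := V.self hpV.1
  have hkq : V q (a + 4 * p) (padicValRat q (a + 4 * p)) := V.self hk2.1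
  rw [(hkq.div hAq).2] at hq3
  set α' := padicValRat q a
  set π' := padicValRat q p
  set κ' := padicValRat q (a + 4 * p)
  set t' := padicValRat q 3
  -- thresholds
  obtain ⟨d, hd⟩ : ∃ d : ℤ, d = -(α.natAbs : ℤ) * 2 - 12 * w0.natAbs - 20 := ⟨_, rfl⟩
  obtain ⟨d', hd'⟩ : ∃ d' : ℤ, d' = -(α'.natAbs : ℤ) * 2 - 3 * π'.natAbs - 3 * κ'.natAbs
    - 3 * t'.natAbs - 20 := ⟨_, rfl⟩
  obtain ⟨n1, hn1, hcl1⟩ := near' ha hP0 2 d
  obtain ⟨n2, hn2, hcl2⟩ := near' ha (hP0.smul hn1) q d'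
  have hP1 := (hP0.smul hn1).smul hn2
  obtain ⟨w1, hw1, hx1⟩ := (hcl1.nsmul ha (by omega) n2) hP1.ne_zero
  obtain ⟨w1', hw1', hx1'⟩ := hcl2 hP1.ne_zero
  set P1 := n2 • n1 • P0 with hP1def
  obtain ⟨y1, hy1⟩ := X_eqn hP1.ne_zero
  set X1 := gx a (X P1) with hX1
  have hgX1 : V 2 X1 w1 := (g_V ha hx1 (by omega)).cast (by rw [V3.2]; ring)
  have hgX1' : V q X1 (w1' - t') := g_V ha hx1' (by omega)
  have hG1 := g_eq hx1.1 hy1
  rw [← hX1] at hG1
  set Y1 := gy a (X P1) y1 with hY1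
  set r := X1 ^ 3 - a with hrdef
  have hrV : V 2 r (3 * w1) :=
    ((hgX1.pow 3).cast (by push_cast; ring)).sub (hA2.toG le_rfl) (by omega)
  have hrV' : V q r (3 * (w1' - t')) :=
    ((hgX1'.pow 3).cast (by push_cast; ring)).sub (hAq.toG le_rfl) (by omega)
  obtain ⟨m1, m2⟩ := valM hA2 hpV hk2 hrV (by omega) (by omega) (by omega)
  obtain ⟨m1', m2'⟩ := valM hAq hpq hkq hrV' (by omega) (by omega) (by omega)
  have hρ2 : V 2 (M1 a p r / M2 a p r) (2 + 3 * w0 - α) := (m1.div m2).cast (by ring)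
  have hρq : V q (M1 a p r / M2 a p r) (κ' - α') := (m1'.div m2').cast (by ring)
  obtain ⟨yA, hyA⟩ := point_A (a := a) (p := p) (r := r) (X := X0) (Y := Y0)
    (by rw [hp]; linarith) (by rw [hp]; ring) m2.1
  obtain ⟨yB, hyB⟩ := point_A (a := a) (p := r) (r := p) (X := X1) (Y := Y1)
    (by rw [hrdef]; linarith) (by rw [hrdef]; ring) (by rw [M2_eq]; exact m1.1)
  have hinv : M1 a r p / M2 a r p = (M1 a p r / M2 a p r)⁻¹ := by
    rw [inv_div, ← M2_eq, M2_eq a r p]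
  rw [hinv] at hyB
  set ρ := M1 a p r / M2 a p r with hρ
  refine ⟨ρ, hρ2.1, ?_, ?_, ?_⟩
  · rintro ⟨z, hz⟩
    have hz0 : z ≠ 0 := by
      intro h0; apply hρ2.1; rw [hz, h0]; ring
    have e3 := (V.self (p := q) hz0).pow 3
    rw [← hz] at e3
    have := e3.unique hρq
    push_cast at this
    apply hq3
    omega
  · refine ⟨mul_ne_zero (mul_ne_zero (by norm_num) ha) (pow_ne_zero _ hρ2.1), _, yA, _, hyA,
      (V3.mul (hρ2.pow 2)).mul hgX0, ?_⟩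
    have := ((V27.mul hA2).mul (hρ2.pow 4)).2
    rw [this]
    push_cast
    omega
  · have hρi : V 2 (ρ⁻¹) (-(2 + 3 * w0 - α)) := by
      refine ⟨inv_ne_zero hρ2.1, ?_⟩
      rw [padicValRat.inv, hρ2.2]
    refine ⟨mul_ne_zero (mul_ne_zero (by norm_num) ha) (pow_ne_zero _ hρi.1), _, yB, _, hyB,
      (V3.mul (hρi.pow 2)).mul hgX1, ?_⟩
    have := ((V27.mul hA2).mul (hρi.pow 4)).2
    rw [this]
    push_cast
    omega

end Pool.Agent.Q6.Mord
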