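import Pool.Agent.Q6.GoodPt

/-!
# The construction: a non-cube `ρ` with `E_{aρ⁴}` and `E_{aρ²}` of positive rank
-/

namespace Pool.Agent.Q6.Mord

open WeierstrassCurve Val

/-- image of an `x`-coordinate under the 3-isogeny, divided by 3 -/
def gx (a x : ℚ) : ℚ := (x ^ 3 + 4 * a) / (3 * x ^ 2)

/-- image of a `y`-coordinate under the 3-isogeny, divided by 3 -/
def gy (a x y : ℚ) : ℚ := y * (x ^ 3 - 8 * a) / (3 * x ^ 3)

theorem g_eq {a x y : ℚ} (hx : x ≠ 0) (h : y ^ 2 = x ^ 3 + a) :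
    gy a x y ^ 2 + 3 * a = 3 * gx a x ^ 3 := by
  unfold gx gy
  field_simp
  rw [h]; ring

theorem g_V {ℓ : ℕ} [Fact ℓ.Prime] {a x : ℚ} {v : ℤ} (ha : a ≠ 0) (hv : V ℓ x v)
    (hlt : 3 * v < padicValRat ℓ a) : V ℓ (gx a x) (v - padicValRat ℓ 3) := by
  have hB : V ℓ a (padicValRat ℓ a) := V.self ha
  have h1 : V ℓ (x ^ 3 + 4 * a) ((3 : ℕ) * v) :=
      (hv.pow 3).add ((G_ofNat 4).mul (hB.toG le_rfl)) (by push_cast; omega)
  have h3 : V ℓ (3 : ℚ) (padicValRat ℓ 3) := V.self (by norm_num)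
  exact (h1.div (h3.mul (hv.pow 2))).cast (by push_cast; ring)

/-- first multiplier -/
def M1 (a p r : ℚ) : ℚ := a * (p + r) ^ 2 + 4 * p * r ^ 2

/-- second multiplier -/
def M2 (a p r : ℚ) : ℚ := a * (p + r) ^ 2 + 4 * p ^ 2 * r

theorem M2_eq (a p r : ℚ) : M2 a p r = M1 a r p := by
  unfold M2 M1; ring

theorem ident (a p r : ℚ) :
    p * (a * (p + r) * (p - 3 * r) - 4 * p * r ^ 2) ^ 2 + a * M2 a p r ^ 2 =
      (a + p) * M1 a p r ^ 2 := by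
  unfold M1 M2; ring

theorem valM {ℓ : ℕ} [Fact ℓ.Prime] {a p r : ℚ} {α π κ θ : ℤ} (ha : V ℓ a α) (hp : V ℓ p π)
    (hk : V ℓ (a + 4 * p) κ) (hr : V ℓ r θ) (h1 : θ < π) (h2 : θ < α + π - κ)
    (h3 : θ < 2 * π - α) :
    V ℓ (M1 a p r) (κ + 2 * θ) ∧ V ℓ (M2 a p r) (α + 2 * θ) := by
  have g : G ℓ θ (p + 2 * r) :=
    (hp.toG h1.le).add (((G_ofNat 2).mul (hr.toG le_rfl)).mono (by omega))
  have g' : G ℓ (α + π + θ) (a * p * (p + 2 * r)) := ((ha.mul hp).toG le_rfl).mul g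
  constructor
  · have e : M1 a p r = (a + 4 * p) * r ^ 2 + a * p * (p + 2 * r) := by unfold M1; ring
    rw [e]
    exact ((hk.mul (hr.pow 2)).cast (l := κ + 2 * θ) (by push_cast; ring)).add g' (by omega)
  · have e : M2 a p r = a * r ^ 2 + a * p * (p + 2 * r) + 4 * p ^ 2 * r := by unfold M2; ring
    rw [e]
    refine V.add (((ha.mul (hr.pow 2)).cast (l := α + 2 * θ) (by push_cast; ring)).add g'
      (by omega)) (l := 0 + 2 * π + θ) ?_ (by omega)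
    refine ((G_ofNat 4).mul ?_).mul (hr.toG le_rfl)
    exact ((hp.pow 2).cast (by push_cast; ring)).toG le_rfl

/-- the point on `y² = x³ - 27 a ρ⁴` -/
theorem point_A {a p r X Y : ℚ} (hp : Y ^ 2 = 3 * p) (hX : p + a = X ^ 3) (hM2 : M2 a p r ≠ 0) :
    ∃ y : ℚ, y ^ 2 = (3 * (M1 a p r / M2 a p r) ^ 2 * X) ^ 3
      + -27 * a * (M1 a p r / M2 a p r) ^ 4 := by
  refine ⟨3 * (M1 a p r / M2 a p r) ^ 2 *
    (Y * (a * (p + r) * (p - 3 * r) - 4 * p * r ^ 2) / M2 a p r), ?_⟩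
  have h := ident a p r
  have hXX : (3 * (M1 a p r / M2 a p r) ^ 2 * X) ^ 3
      = 27 * (M1 a p r / M2 a p r) ^ 6 * (p + a) := by rw [hX]; ring
  rw [hXX]
  have hYY : (3 * (M1 a p r / M2 a p r) ^ 2 *
    (Y * (a * (p + r) * (p - 3 * r) - 4 * p * r ^ 2) / M2 a p r)) ^ 2
      = 27 * (M1 a p r / M2 a p r) ^ 4 *
        (p * (a * (p + r) * (p - 3 * r) - 4 * p * r ^ 2) ^ 2) / M2 a p r ^ 2 := by
    linear_combination (9 * (M1 a p r / M2 a p r) ^ 4 *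
      (a * (p + r) * (p - 3 * r) - 4 * p * r ^ 2) ^ 2 / M2 a p r ^ 2) * hp
  rw [hYY]
  have e : p * (a * (p + r) * (p - 3 * r) - 4 * p * r ^ 2) ^ 2 =
      (a + p) * M1 a p r ^ 2 - a * M2 a p r ^ 2 := by linarith
  rw [e]
  field_simp
  ring

end Pool.Agent.Q6.Mord
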