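import Pool.Agent.Q6.Mord

/-!
# Multiples of a point of infinite order on `y² = x³ + b` come close to the origin `p`-adically
-/

namespace Pool.Agent.Q6.Mord

open WeierstrassCurve Filter Topology

/-- non-torsion -/
def NT {b : ℚ} (P : (E b).Point) : Prop := ∀ n : ℕ, n ≠ 0 → n • P ≠ 0

theorem NT.smul {b : ℚ} {P : (E b).Point} (hP : NT P) {n : ℕ} (hn : n ≠ 0) : NT (n • P) := by
  intro m hm
  rw [← mul_smul]
  exact hP _ (mul_ne_zero hm hn)

theorem NT.ne_zero {b : ℚ} {P : (E b).Point} (hP : NT P) : P ≠ 0 := by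
  have := hP 1 one_ne_zero
  rwa [one_smul] at this

theorem NT.X_ne {b : ℚ} {P : (E b).Point} (hP : NT P) {s t : ℕ} (hs : s ≠ 0) (hst : s < t) :
    X (t • P) ≠ X (s • P) := by
  intro h
  rcases X_eq (hP t (by omega)) (hP s hs) h with h1 | h1
  · apply hP (t - s) (by omega)
    rw [sub_nsmul P hst.le, h1]
    exact add_neg_cancel _
  · apply hP (t + s) (by omega)
    rw [add_nsmul, h1]
    exact neg_add_cancel _

theorem near {b : ℚ} (hb : b ≠ 0) {P : (E b).Point} (hP : NT P)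
    (ℓ : ℕ) [Fact ℓ.Prime] (C : ℝ) : ∃ n : ℕ, n ≠ 0 ∧ C < ‖(X (n • P) : ℚ_[ℓ])‖ := by
  by_contra hcon
  push Not at hcon
  have hC : 0 ≤ C := (norm_nonneg _).trans (hcon 1 one_ne_zero)
  let u : ℕ → ℚ_[ℓ] := fun k => (X ((k + 1) • P) : ℚ_[ℓ])
  have hu : ∀ k, u k ∈ Metric.closedBall (0 : ℚ_[ℓ]) C := by
    intro k
    rw [mem_closedBall_zero_iff]
    exact hcon (k + 1) (by omega)
  obtain ⟨ξ, -, φ, hφ, hlim⟩ := tendsto_subseq_of_bounded Metric.isBounded_closedBall hu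
  have hlim1 : Tendsto (fun k => u (φ k)) atTop (𝓝 ξ) := hlim
  have hlim2 : Tendsto (fun k => u (φ (k + 1))) atTop (𝓝 ξ) := (tendsto_add_atTop_iff_nat 1).2 hlim
  have hδ : Tendsto (fun k => u (φ (k + 1)) - u (φ k)) atTop (𝓝 0) := by
    have := hlim2.sub hlim1
    rwa [sub_self] at this
  have main : ∀ k, ∃ A B : ℚ_[ℓ], ‖A‖ ≤ C ∧ ‖B‖ ≤ C ∧
      A * B * (u (φ (k + 1)) - u (φ k)) ^ 2 =
        (u (φ (k + 1)) * u (φ k)) ^ 2 - 4 * b * (u (φ (k + 1)) + u (φ k)) ∧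
      (A + B) * (u (φ (k + 1)) - u (φ k)) ^ 2 =
        2 * (u (φ (k + 1)) * u (φ k) * (u (φ (k + 1)) + u (φ k)) + 2 * b) := by
    intro k
    have hlt : φ k + 1 < φ (k + 1) + 1 := by
      have := hφ (Nat.lt_succ_self k)
      simpa using this
    obtain ⟨h1, h2, h3, h4⟩ := sum_diff (hP (φ (k + 1) + 1) (by omega)) (hP (φ k + 1) (by omega))
      (hP.X_ne (by omega) hlt)
    rw [← add_nsmul] at h1 h3 h4
    have hsub : (φ (k + 1) + 1) • P - (φ k + 1) • P = ((φ (k + 1) + 1) - (φ k + 1)) • P := by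
      rw [sub_nsmul P hlt.le]; exact sub_eq_add_neg _ _
    rw [hsub] at h2 h3 h4
    refine ⟨(X ((φ (k + 1) + 1 + (φ k + 1)) • P) : ℚ_[ℓ]),
      (X (((φ (k + 1) + 1) - (φ k + 1)) • P) : ℚ_[ℓ]), hcon _ (by omega), hcon _ (by omega), ?_, ?_⟩
    · simp only [u]; exact_mod_cast h3
    · simp only [u]; exact_mod_cast h4
  choose A B hA hB h1 h2 using main
  have t1 : Tendsto (fun k => A k * B k * (u (φ (k + 1)) - u (φ k)) ^ 2) atTop (𝓝 0) := by
    apply squeeze_zero_norm (a := fun k => C * C * ‖u (φ (k + 1)) - u (φ k)‖ ^ 2)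
    · intro k
      rw [norm_mul, norm_mul, norm_pow]
      gcongr
      · exact hA k
      · exact hB k
    · have := ((hδ.norm).pow 2).const_mul (C * C)
      simpa using this
  have t2 : Tendsto (fun k => (A k + B k) * (u (φ (k + 1)) - u (φ k)) ^ 2) atTop (𝓝 0) := by
    apply squeeze_zero_norm (a := fun k => (C + C) * ‖u (φ (k + 1)) - u (φ k)‖ ^ 2)
    · intro k
      rw [norm_mul, norm_pow]
      gcongr
      exact (norm_add_le _ _).trans (add_le_add (hA k) (hB k))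
    · have := ((hδ.norm).pow 2).const_mul (C + C)
      simpa using this
  have s1 : Tendsto (fun k => A k * B k * (u (φ (k + 1)) - u (φ k)) ^ 2) atTop
      (𝓝 ((ξ * ξ) ^ 2 - 4 * b * (ξ + ξ))) := by
    simp_rw [h1]
    exact ((hlim2.mul hlim1).pow 2).sub ((hlim2.add hlim1).const_mul _)
  have s2 : Tendsto (fun k => (A k + B k) * (u (φ (k + 1)) - u (φ k)) ^ 2) atTop
      (𝓝 (2 * (ξ * ξ * (ξ + ξ) + 2 * b))) := by
    simp_rw [h2]
    exact (((hlim2.mul hlim1).mul (hlim2.add hlim1)).add_const _).const_mul _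
  have r1 := tendsto_nhds_unique t1 s1
  have r2 := tendsto_nhds_unique t2 s2
  have hb2 : (b : ℚ_[ℓ]) ^ 2 = 0 := by
    linear_combination (-(ξ ^ 2) / 9) * r1 - ((9 * (b : ℚ_[ℓ]) - ξ ^ 3) / 36) * r2
  have : (b : ℚ_[ℓ]) = 0 := pow_eq_zero_iff (by norm_num) |>.1 hb2
  exact hb (by exact_mod_cast this)

end Pool.Agent.Q6.Mord
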